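import Pool.Agent.Y199.ZF.Fam

/-!
The values of the coordinates of a point at a place give a point of the tropicalization with rational
or infinite coordinates (helper file).
-/

set_option autoImplicit false

namespace Pool.Agent.R424.TG

open MvPolynomial

/-- `Pool.Agent.Y199.ZF.transfer` for a finite type of coordinates. -/
theorem transfer' {Γ₀ : Type*} [LinearOrderedCommGroupWithZero Γ₀] {ι σ : Type} [Finite ι]
    [Fintype σ] (a : ι → σ → ℤ) (z : ι → ℤ) (y : σ → Γ₀) (hy : ∀ i, y i ≠ 0) (π : Γ₀)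
    (hπ0 : π ≠ 0) (hπ1 : π < 1) (h : ∀ i, (∏ l, y l ^ a i l) * π ^ z i ≤ 1) :
    ∃ w : σ → ℚ, ∀ i, 0 ≤ ∑ l, (a i l : ℚ) * w l + z i := by
  classical
  have : Fintype ι := Fintype.ofFinite ι
  let eσ := Fintype.equivFin σ
  obtain ⟨w, hw⟩ := Pool.Agent.Y199.ZF.transfer (fun i l => a i (eσ.symm l)) z
    (fun l => y (eσ.symm l)) (fun l => hy _) π hπ0 hπ1 (fun i => by
      rw [Equiv.prod_comp eσ.symm (fun l => y l ^ a i l)]
      exact h i)
  refine ⟨fun l => w (eσ l), fun i => ?_⟩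
  have h1 := hw i
  rw [← Equiv.sum_comp eσ] at h1
  simpa using h1

/-- The value at `w` of a monomial with the exponents `β` and a coefficient of order `e`. -/
noncomputable def value {σ : Type} [Fintype σ] (w : σ → WithTop ℚ) (β : σ →₀ ℕ) (e : ℕ) :
    WithTop ℚ :=
  ((e : ℚ) : WithTop ℚ) + ∑ i, β i • w i

theorem nsmul_top' {k : ℕ} (hk : k ≠ 0) : k • (⊤ : WithTop ℚ) = ⊤ := by
  obtain ⟨j, rfl⟩ := Nat.exists_eq_succ_of_ne_zero hk
  rw [Nat.succ_eq_add_one, succ_nsmul, add_top]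

theorem value_top {σ : Type} [Fintype σ] {w : σ → WithTop ℚ} {β : σ →₀ ℕ} {e : ℕ} {l : σ}
    (hl : w l = ⊤) (hβ : β l ≠ 0) : value w β e = ⊤ := by
  have h1 : ∑ i, β i • w i = ⊤ := by
    rw [WithTop.sum_eq_top]
    exact ⟨l, Finset.mem_univ l, by rw [hl]; exact nsmul_top' hβ⟩
  rw [value, h1, add_top]

theorem value_coe {σ : Type} [Fintype σ] {w : σ → WithTop ℚ} {β : σ →₀ ℕ} {e : ℕ} {u : σ → ℚ}
    (h : ∀ l, β l ≠ 0 → w l = (u l : WithTop ℚ)) :
    value w β e = ((e + ∑ l, (β l : ℚ) * u l : ℚ) : WithTop ℚ) := by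
  have h1 : ∀ l, β l • w l = (((β l : ℚ) * u l : ℚ) : WithTop ℚ) := by
    intro l
    by_cases hl : β l = 0
    · rw [hl, zero_smul]
      simp
    · rw [h l hl, ← WithTop.coe_nsmul, nsmul_eq_mul]
  rw [value, Finset.sum_congr rfl fun l _ => h1 l, ← WithTop.coe_sum, ← WithTop.coe_add]

/-- The tropical conditions of an equation with the exponents `supp` and coefficients of the orders
`e β`: the minimum of the values of the monomials is attained twice, or infinite. -/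
def TropAt {σ : Type} [Fintype σ] (supp : Finset (σ →₀ ℕ)) (e : (σ →₀ ℕ) → ℕ)
    (w : σ → WithTop ℚ) : Prop :=
  (∀ β ∈ supp, value w β (e β) = ⊤) ∨ ∃ a ∈ supp, ∃ b ∈ supp, a ≠ b ∧
    value w a (e a) = value w b (e b) ∧ ∀ β ∈ supp, value w a (e a) ≤ value w β (e β)

/-- The values of the coordinates, with `1` for the coordinates which are zero. -/
noncomputable def yv {σ : Type} (V : ValuationSubring ℂ) (z : σ → ℂ) (l : σ) : V.ValueGroup := by
  classical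
  exact if z l = 0 then 1 else V.valuation (z l)

theorem yv_of_ne {σ : Type} (V : ValuationSubring ℂ) {z : σ → ℂ} {l : σ} (h : z l ≠ 0) :
    yv V z l = V.valuation (z l) := by
  classical
  exact if_neg h

theorem yv_ne {σ : Type} (V : ValuationSubring ℂ) (z : σ → ℂ) (l : σ) : yv V z l ≠ 0 := by
  classical
  by_cases h : z l = 0
  · have h1 : yv V z l = 1 := if_pos h
    rw [h1]
    exact one_ne_zero
  · rw [yv_of_ne V h]
    exact (Valuation.ne_zero_iff _).2 h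

/-- The point of the tropicalization given by the values of the coordinates. -/
theorem local_point {σ : Type} [Fintype σ] (V : ValuationSubring ℂ) (π : V.ValueGroup)
    (hπ0 : π ≠ 0) (hπ1 : π < 1) {κ : Type} [Finite κ] (supp : κ → Finset (σ →₀ ℕ))
    (b : κ → (σ →₀ ℕ) → ℂ) (e : κ → (σ →₀ ℕ) → ℕ)
    (hb : ∀ q, ∀ β ∈ supp q, V.valuation (b q β) = π ^ e q β)
    (z : σ → ℂ) (hz : ∀ q, ∑ β ∈ supp q, b q β * ∏ i, z i ^ β i = 0)
    {ι : Type} [Finite ι] (a : ι → σ → ℤ) (ha : ∀ i, ∏ l, yv V z l ^ a i l ≤ 1) :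
    ∃ (w : σ → WithTop ℚ) (u : σ → ℚ), (∀ l, z l = 0 → w l = ⊤) ∧
      (∀ l, z l ≠ 0 → w l = (u l : WithTop ℚ)) ∧ (∀ q, TropAt (supp q) (e q) w) ∧
      ∀ i, 0 ≤ ∑ l, (a i l : ℚ) * u l := by
  classical
  set v := V.valuation with hv
  let y : σ → V.ValueGroup := yv V z
  have hy0 : ∀ l, y l ≠ 0 := yv_ne V z
  have hyz : ∀ l, z l ≠ 0 → y l = v (z l) := fun l h => yv_of_ne V h
  -- the monomials which are not zero
  let A : κ → Finset (σ →₀ ℕ) := fun q => (supp q).filter fun β => ∀ l, z l = 0 → β l = 0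
  let term : κ → (σ →₀ ℕ) → ℂ := fun q β => b q β * ∏ i, z i ^ β i
  have hbne : ∀ q, ∀ β ∈ supp q, b q β ≠ 0 := by
    intro q β hβ h0
    have h1 := hb q β hβ
    rw [h0, map_zero] at h1
    exact pow_ne_zero _ hπ0 h1.symm
  have hterm0 : ∀ q, ∀ β ∈ A q, term q β ≠ 0 := by
    intro q β hβ
    obtain ⟨h1, h2⟩ := Finset.mem_filter.1 hβ
    refine mul_ne_zero (hbne q β h1) (Finset.prod_ne_zero_iff.2 fun l _ => ?_)
    by_cases hl : z l = 0
    · rw [h2 l hl, pow_zero]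
      exact one_ne_zero
    · exact pow_ne_zero _ hl
  have hterm0' : ∀ q, ∀ β ∈ supp q, β ∉ A q → term q β = 0 := by
    intro q β hβ hβA
    have h1 : ∃ l, z l = 0 ∧ β l ≠ 0 := by
      by_contra h
      push Not at h
      exact hβA (Finset.mem_filter.2 ⟨hβ, h⟩)
    obtain ⟨l, hl, hl'⟩ := h1
    have h2 : ∏ i, z i ^ β i = 0 := Finset.prod_eq_zero (Finset.mem_univ l) (by
      rw [hl, zero_pow hl'])
    simp only [term, h2, mul_zero]
  have hsum : ∀ q, ∑ β ∈ A q, term q β = 0 := by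
    intro q
    rw [← hz q]
    refine Finset.sum_subset (Finset.filter_subset _ _) fun β hβ hβA => hterm0' q β hβ hβA
  have hval : ∀ q, ∀ β ∈ A q, v (term q β) = (∏ l, y l ^ (β l)) * π ^ e q β := by
    intro q β hβ
    obtain ⟨h1, h2⟩ := Finset.mem_filter.1 hβ
    simp only [term, map_mul, map_prod, map_pow]
    rw [hb q β h1, mul_comm]
    congr 1
    refine Finset.prod_congr rfl fun l _ => ?_
    by_cases hl : z l = 0
    · rw [h2 l hl, pow_zero, pow_zero]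
    · rw [hyz l hl]
  -- the inequalities
  let J := {p : Σ q : κ, {β // β ∈ supp q} × {β // β ∈ supp q} //
    (p.2.1 : σ →₀ ℕ) ∈ A p.1 ∧ (p.2.2 : σ →₀ ℕ) ∈ A p.1 ∧
      v (term p.1 p.2.1) ≤ v (term p.1 p.2.2)}
  have hfin : Finite J := by
    have : Finite (Σ q : κ, {β // β ∈ supp q} × {β // β ∈ supp q}) := inferInstance
    infer_instance
  let vec : ι ⊕ J → σ → ℤ := Sum.elim a (fun p l => ((p.1.2.1 : σ →₀ ℕ) l : ℤ) - ((p.1.2.2 : σ →₀ ℕ) l : ℤ))
  let zz : ι ⊕ J → ℤ := Sum.elim (fun _ => 0)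
    (fun p => (e p.1.1 (p.1.2.1 : σ →₀ ℕ) : ℤ) - (e p.1.1 (p.1.2.2 : σ →₀ ℕ) : ℤ))
  obtain ⟨u, hu⟩ := transfer' vec zz y hy0 π hπ0 hπ1 (by
    rintro (i | ⟨⟨q, β, β'⟩, h1, h2, h3⟩)
    · change (∏ l, y l ^ a i l) * π ^ (0 : ℤ) ≤ 1
      rw [zpow_zero, mul_one]
      exact ha i
    · change (∏ l, y l ^ (((β : σ →₀ ℕ) l : ℤ) - ((β' : σ →₀ ℕ) l : ℤ))) *
        π ^ ((e q (β : σ →₀ ℕ) : ℤ) - (e q (β' : σ →₀ ℕ) : ℤ)) ≤ 1
      have h4 : (∏ l, y l ^ (((β : σ →₀ ℕ) l : ℤ) - ((β' : σ →₀ ℕ) l : ℤ))) *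
          π ^ ((e q (β : σ →₀ ℕ) : ℤ) - (e q (β' : σ →₀ ℕ) : ℤ)) =
          v (term q β) / v (term q β') := by
        rw [hval q _ h1, hval q _ h2, zpow_sub₀ hπ0, zpow_natCast, zpow_natCast]
        have h5 : ∏ l, y l ^ (((β : σ →₀ ℕ) l : ℤ) - ((β' : σ →₀ ℕ) l : ℤ)) =
            (∏ l, y l ^ ((β : σ →₀ ℕ) l)) / ∏ l, y l ^ ((β' : σ →₀ ℕ) l) := by
          rw [← Finset.prod_div_distrib]
          refine Finset.prod_congr rfl fun l _ => ?_
          rw [zpow_sub₀ (hy0 l), zpow_natCast, zpow_natCast]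
        rw [h5, div_mul_div_comm]
      rw [h4]
      exact div_le_one_of_le₀ h3 zero_le)
  let w : σ → WithTop ℚ := fun l => if z l = 0 then ⊤ else (u l : WithTop ℚ)
  have hw0 : ∀ l, z l = 0 → w l = ⊤ := fun l h => if_pos h
  have hw1 : ∀ l, z l ≠ 0 → w l = (u l : WithTop ℚ) := fun l h => if_neg h
  have hcoe : ∀ q, ∀ β ∈ A q, value w β (e q β) =
      ((e q β + ∑ l, (β l : ℚ) * u l : ℚ) : WithTop ℚ) := by
    intro q β hβ
    obtain ⟨h1, h2⟩ := Finset.mem_filter.1 hβ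
    exact value_coe fun l hl => hw1 l fun h => hl (h2 l h)
  have htop : ∀ q, ∀ β ∈ supp q, β ∉ A q → value w β (e q β) = ⊤ := by
    intro q β hβ hβA
    have h1 : ∃ l, z l = 0 ∧ β l ≠ 0 := by
      by_contra h
      push Not at h
      exact hβA (Finset.mem_filter.2 ⟨hβ, h⟩)
    obtain ⟨l, hl, hl'⟩ := h1
    exact value_top (hw0 l hl) hl'
  have hle : ∀ q, ∀ β ∈ A q, ∀ β' ∈ A q, v (term q β) ≤ v (term q β') →
      (e q β' + ∑ l, (β' l : ℚ) * u l : ℚ) ≤ (e q β + ∑ l, (β l : ℚ) * u l : ℚ) := by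
    intro q β hβ β' hβ' h
    have h1 := hu (Sum.inr ⟨⟨q, ⟨β, (Finset.mem_filter.1 hβ).1⟩,
      ⟨β', (Finset.mem_filter.1 hβ').1⟩⟩, hβ, hβ', h⟩)
    simp only [vec, zz, Sum.elim_inr] at h1
    push_cast at h1
    simp only [sub_mul, Finset.sum_sub_distrib] at h1
    linarith
  refine ⟨w, u, hw0, hw1, fun q => ?_, fun i => ?_⟩
  · by_cases hne : (A q).Nonempty
    · right
      obtain ⟨a, ha, b', hb', hab, hvab, hmax⟩ := Pool.Agent.Y199.ZF.exists_pair_val V (A q) hne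
        (term q) (hterm0 q) (hsum q)
      refine ⟨a, (Finset.mem_filter.1 ha).1, b', (Finset.mem_filter.1 hb').1, hab, ?_, ?_⟩
      · rw [hcoe q a ha, hcoe q b' hb']
        exact congrArg _ (le_antisymm (hle q b' hb' a ha hvab.ge) (hle q a ha b' hb' hvab.le))
      · intro β hβ
        by_cases hβA : β ∈ A q
        · rw [hcoe q a ha, hcoe q β hβA, WithTop.coe_le_coe]
          exact hle q β hβA a ha (hmax β hβA)
        · rw [htop q β hβ hβA]
          exact le_top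
    · left
      intro β hβ
      exact htop q β hβ fun h => hne ⟨β, h⟩
  · have h1 := hu (Sum.inl i)
    simp only [vec, zz, Sum.elim_inl, Int.cast_zero, add_zero] at h1
    exact h1

/-- The values of the coefficients near the degenerate members. -/
theorem near' {k : Type} [Field k] [Algebra k ℂ] {ι : Type} [Finite ι]
    (c : ι → Polynomial k) (hc : ∀ i, c i ≠ 0) (D : Finset k) (Γ : Set k) (hΓ : Γ.Finite) :
    ∃ W : Set k, W.Finite ∧ Γ ⊆ W ∧ (∀ z ∈ D, z ∈ W) ∧ ∀ V : ValuationSubring ℂ,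
      (∀ z ∈ W, algebraMap k ℂ z ∈ V) →
      ∀ α ∈ D, ∀ t : ℂ, V.valuation (t - algebraMap k ℂ α) < 1 → ∀ i,
        V.valuation (Polynomial.aeval t (c i)) =
          V.valuation (t - algebraMap k ℂ α) ^ (c i).rootMultiplicity α := by
  classical
  have : Fintype ι := Fintype.ofFinite ι
  have hq : ∀ (α : k) (i : ι), ∃ q : Polynomial k,
      c i = (Polynomial.X - Polynomial.C α) ^ (c i).rootMultiplicity α * q ∧ q.eval α ≠ 0 := by
    intro α i
    obtain ⟨q, hq1, hq2⟩ :=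
      Polynomial.exists_eq_pow_rootMultiplicity_mul_and_not_dvd (c i) (hc i) α
    refine ⟨q, hq1, fun h => hq2 ?_⟩
    rw [Polynomial.dvd_iff_isRoot]
    exact h
  choose q hq1 hq2 using hq
  let W1 : Set k := (⋃ l ∈ D, ⋃ x, Pool.Agent.TH526.ZL.coefs1 (q l x)) ∪
    (⋃ l ∈ D, Set.range fun x : ι => (q l x).eval l)
  have hW1 : W1.Finite :=
    Set.Finite.union (D.finite_toSet.biUnion fun l _ => Set.finite_iUnion fun x =>
      Pool.Agent.TH526.ZL.coefs1_finite _)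
      (D.finite_toSet.biUnion fun l _ => Set.finite_range _)
  let W2 : Set k := W1 ∪ ((fun z => z⁻¹) '' W1 ∪ ((D : Set k) ∪ Γ))
  refine ⟨W2, hW1.union ((hW1.image _).union (D.finite_toSet.union hΓ)),
    fun z hz => Or.inr (Or.inr (Or.inr hz)), fun z hz => Or.inr (Or.inr (Or.inl hz)),
    fun V hV α hα t ht i => ?_⟩
  have hW1V : ∀ z ∈ W1, algebraMap k ℂ z ∈ V := fun z hz => hV z (Or.inl hz)
  have hW1V' : ∀ z ∈ W1, algebraMap k ℂ z⁻¹ ∈ V := fun z hz =>
    hV _ (Or.inr (Or.inl ⟨z, hz, rfl⟩))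
  have hαV : algebraMap k ℂ α ∈ V := hV _ (Or.inr (Or.inr (Or.inl hα)))
  have h1 : V.valuation (Polynomial.aeval t (q α i)) = 1 := by
    have h2 : V.valuation (algebraMap k ℂ ((q α i).eval α)) = 1 :=
      Pool.Agent.TH526.ZL.v_unit V hW1V hW1V' (Or.inr (Set.mem_iUnion₂.2 ⟨α, hα, i, rfl⟩))
        (hq2 _ _)
    have h3 := Pool.Agent.Y199.ZF.v_aeval_sub V (q α i) (Pool.Agent.TH526.ZL.coefs1_mem V
      fun z hz => hW1V z (Or.inl (Set.mem_iUnion₂.2 ⟨α, hα, Set.mem_iUnion.2 ⟨i, hz⟩⟩))) hαV ht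
    rw [← h2]
    refine Valuation.map_eq_of_sub_lt _ ?_
    rw [h2]
    exact h3
  have h2 := hq1 α i
  conv_lhs => rw [h2]
  rw [map_mul, map_pow, map_sub, Polynomial.aeval_X, Polynomial.aeval_C, map_mul, h1, mul_one,
    map_pow]

end Pool.Agent.R424.TG
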