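import Pool.Agent.R424.TG.Main

/-!
The tropical criterion for a single subset of `Y(1)^n × G_m^k` and valuation rings (helper file).
-/

set_option autoImplicit false

namespace Pool.Agent.R424.TG

open H294ZP UpperHalfPlane MvPolynomial Pool.Agent.W282.ZP Pool.Agent.Y152.BD
  Pool.Agent.Y152.RP Pool.Agent.Y152.RP.FamM
open Pool.Agent.R424.FD (toNat_mul')

/-- The set of the points `x` of `Y(1)^n × G_m^k` for which there is a `y` such that all polynomials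
with the exponents `supp q` and the coefficients `b q β` vanish at `(x, y)`. -/
def solutions {n k N : ℕ} {κ : Type} (supp : κ → Finset (((Fin n ⊕ Fin k) ⊕ Fin N) →₀ ℕ))
    (b : κ → (((Fin n ⊕ Fin k) ⊕ Fin N) →₀ ℕ) → ℂ) : Set (Fin n ⊕ Fin k → ℂ) :=
  {x | (∀ j, x (Sum.inr j) ≠ 0) ∧ ∃ y : Fin N → ℂ, ∀ q,
    ∑ β ∈ supp q, b q β * ∏ i, (Sum.elim x y : (Fin n ⊕ Fin k) ⊕ Fin N → ℂ) i ^ β i = 0}

/-- **The tropical criterion**, abstract form. -/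
theorem coreA (K K₁ : Subfield ℂ) (hK : K ≤ K₁) [Countable K₁] {κ : Type} [Finite κ]
    {n k₀ N m : ℕ} (supp : κ → Finset (((Fin n ⊕ Fin k₀) ⊕ Fin N) →₀ ℕ))
    (b : κ → (((Fin n ⊕ Fin k₀) ⊕ Fin N) →₀ ℕ) → ℂ) (Γ : Finset ℂ)
    (hΓ : ∀ γ ∈ Γ, IsAlgebraic K γ)
    (hgood : ∀ (r : ℕ) (cls : Fin n → Option (Fin r)) (d : Fin n → ℕ)
      (L : Submodule ℚ (Fin k₀ → ℚ)), (∀ i, 0 < d i) → r + Module.finrank ℚ L + m < n + k₀ →
      ∃ e : κ → (((Fin n ⊕ Fin k₀) ⊕ Fin N) →₀ ℕ) → ℕ,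
        (∀ w, (∀ q, TropAt (supp q) (e q) w) → ¬ Compatible cls d L w) ∧
        ∀ (ρ : Type) (x : ρ → ℂ), AlgebraicIndependent K₁ x →
          ∃ (V : ValuationSubring ℂ) (π : V.ValueGroup), π ≠ 0 ∧ π < 1 ∧
            (∀ q, ∀ β ∈ supp q, V.valuation (b q β) = π ^ e q β) ∧ (∀ γ ∈ Γ, γ ∈ V) ∧
            ∀ j, V.valuation (x j) = 1) :
    NoAtypical (algebraMap (Algebra.adjoin ℤ (Γ : Set ℂ)) ℂ) K₁ m
      (solutions supp b : Set (Fin n ⊕ Fin k₀ → ℂ)) := by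
  classical
  let 𝕜 := algebraicClosure K ℂ
  have hcl : IsAlgClosure K 𝕜 := inferInstance
  have hmem : ∀ z ∈ Γ, z ∈ algebraicClosure K ℂ := fun z hz =>
    mem_algebraicClosure_iff'.2 (hΓ z hz).isIntegral
  obtain ⟨Γ', hΓ'⟩ : ∃ Γ' : Set 𝕜, algebraMap 𝕜 ℂ '' Γ' = (Γ : Set ℂ) := by
    refine ⟨algebraMap 𝕜 ℂ ⁻¹' (Γ : Set ℂ), ?_⟩
    rw [Set.image_preimage_eq_iff]
    intro z hz
    exact ⟨⟨z, hmem z hz⟩, rfl⟩
  refine noAtypical_of_points K₁ _ (fun x hx => hx.1) ?_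
  rw [← hΓ']
  intro x hx r Z M η hη hxZ hxC S hS
  obtain ⟨hx0, y, hy⟩ := hx
  have hSk : AlgebraicIndependent 𝕜 (fun i : S => x i) := algInd_closure hK hS
  have hd : ∀ i, 0 < (Z.mat i).det.toNat := fun i => by
    have := Z.det_pos i
    omega
  have hrel : ∀ i j l, Z.cls i = some l → Z.cls j = some l →
      IsIntegral (Algebra.adjoin ℤ {x (Sum.inl i)}) (x (Sum.inl j)) ∧
      Polynomial.eval₂ (Polynomial.aeval (x (Sum.inl i)) : Polynomial ℂ →ₐ[ℂ] ℂ).toRingHom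
        (x (Sum.inl j)) (W282.ZP.Psi ((Z.mat i).det.toNat * (Z.mat j).det.toNat)) = 0 := by
    intro i j l hi hj
    have h5 := rel_of_locus Z hxZ i j l hi hj
    rw [toNat_mul' (Z.det_pos i) (Z.det_pos j)] at h5
    exact h5
  have h1 : ∀ i, Z.cls i = none →
      IsIntegral (Algebra.adjoin ℤ (algebraMap 𝕜 ℂ '' Γ')) (x (Sum.inl i)) := by
    intro i hi
    obtain ⟨z, hz⟩ := hxZ
    have h2 : x (Sum.inl i) = Z.const i := (hz i).1 hi
    rw [h2]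
    rcases Z.allowed i with ⟨τ, hτ, hc⟩ | h
    · rw [hc]
      exact (singular_modulus_integral τ hτ).tower_top
    · exact h
  have hηint : ∀ j, IsIntegral (Algebra.adjoin ℤ (algebraMap 𝕜 ℂ '' Γ')) (η j) ∧
      IsIntegral (Algebra.adjoin ℤ (algebraMap 𝕜 ℂ '' Γ')) (η j)⁻¹ := fun j =>
    ⟨(hη j).2.1, (hη j).2.2⟩
  obtain ⟨r', cls', M', hr', hcls', hV'⟩ := reduce (Λ := 𝕜) (F := 𝕜) Z.cls
    (fun i => (Z.mat i).det.toNat) x M η hd (fun i hi => alg_of_int Γ' (h1 i hi)) hrel hx0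
    (fun j => by
      have h5 : IsAlgebraic 𝕜 (η j) := alg_of_int Γ' (hηint j).1
      have h6 : IsAlgebraic K (η j) := by
        have : Algebra.IsAlgebraic K 𝕜 := hcl.isAlgebraic
        exact h5.restrictScalars K
      exact ⟨⟨η j, mem_algebraicClosure_iff.2 h6⟩, rfl⟩)
    hxC.2 S hSk hSk
  by_contra hcon
  push Not at hcon
  have hrank := Pool.Agent.Y199.ZF.finrank_perp M'
  obtain ⟨e, hno, hV⟩ := hgood r' cls' (fun i => (Z.mat i).det.toNat)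
    (Pool.Agent.Y199.ZF.perp M') hd (by omega)
  obtain ⟨V, π, hπ0, hπ1, hVb, hVΓ, hVx⟩ := hV S (fun i : S => x i) hS
  have hΓV : ∀ z ∈ Γ', algebraMap 𝕜 ℂ z ∈ V := fun z hz => hVΓ _ (by
    have h2 : algebraMap 𝕜 ℂ z ∈ (Γ : Set ℂ) := by
      rw [← hΓ']
      exact ⟨z, hz, rfl⟩
    exact h2)
  obtain ⟨hc1, hc2⟩ := hV' V (fun i hi => v_le_of_int Γ' V hΓV (h1 i hi)) hVx (fun j => by
    refine le_antisymm (v_le_of_int Γ' V hΓV (hηint j).1) ?_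
    have h5 := v_le_of_int Γ' V hΓV (hηint j).2
    rw [map_inv₀] at h5
    have h6 : V.valuation (η j) ≠ 0 := (Valuation.ne_zero_iff _).2 (hη j).1
    exact (inv_le_one₀ (zero_lt_iff.2 h6)).1 h5)
  obtain ⟨w, hw1, hw2⟩ := compat_point V π hπ0 hπ1 supp b e hVb (Sum.elim x y) hy cls'
    (fun i => (Z.mat i).det.toNat) hd hc1
    (fun i j c hi hj => by
      obtain ⟨c', hi', hj'⟩ := hcls' i j c hi hj
      exact (hrel i j c' hi' hj').2) hx0 M' hc2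
  exact hno w hw1 hw2

end Pool.Agent.R424.TG
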