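import Pool.Agent.R424.TG.Red

/-!
Arbitrary one-parameter families of subsets of `Y(1)^n × G_m^k` (helper file): the tropical criterion.
-/

set_option autoImplicit false

namespace Pool.Agent.R424.TG

open H294ZP UpperHalfPlane MvPolynomial Pool.Agent.W282.ZP Pool.Agent.Y152.BD
  Pool.Agent.Y152.RP Pool.Agent.Y152.RP.FamM Pool.Agent.Y910.Z
open Pool.Agent.R424.MX (order exists_placeU finite_units)
open Pool.Agent.R424.FD (toNat_mul')

/-- The member `X_t` of the family: the points `x` of `Y(1)^n × G_m^k` over which there is a point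
`(x, y)` at which all the polynomials `P q` (with coefficients at `t`) vanish. -/
def member {K : Subfield ℂ} {n k N : ℕ} {κ : Type} (t : ℂ)
    (P : κ → MvPolynomial ((Fin n ⊕ Fin k) ⊕ Fin N) (Polynomial K)) : Set (Fin n ⊕ Fin k → ℂ) :=
  {x | (∀ j, x (Sum.inr j) ≠ 0) ∧ ∃ y : Fin N → ℂ, ∀ q,
    eval₂ (evalAt K t) (Sum.elim x y) (P q) = 0}

/-- The tropicalization of the system `P` at `α`: for all `q` the minimum of the values of the
monomials of `P q` is attained twice, or infinite. -/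
def Trop {K : Subfield ℂ} {σ κ : Type} [Fintype σ] (α : ℂ) (P : κ → MvPolynomial σ (Polynomial K)) :
    Set (σ → WithTop ℚ) :=
  {w | ∀ q, TropAt (P q).support (fun β => order ((P q).coeff β) α) w}

/-- For every type `(cls, d, L)` of special subvarieties of dimension less than `n + k - m` there are
at least `s` elements `α` of `D` such that the tropicalization at `α` has no compatible point. -/
def Generic {K : Subfield ℂ} {n k N : ℕ} {κ : Type} (m s : ℕ)
    (P : κ → MvPolynomial ((Fin n ⊕ Fin k) ⊕ Fin N) (Polynomial K)) (D : Finset ℂ) : Prop :=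
  ∀ (r : ℕ) (cls : Fin n → Option (Fin r)) (d : Fin n → ℕ) (L : Submodule ℚ (Fin k → ℚ)),
    (∀ i, 0 < d i) → r + Module.finrank ℚ L + m < n + k →
      ∃ I ⊆ D, s ≤ I.card ∧ ∀ α ∈ I, ∀ w ∈ Trop α P, ¬ Compatible cls d L w

section Core

variable {K : Subfield ℂ} {κ : Type} [Finite κ] {n k₀ N : ℕ}

theorem order_map (c : Polynomial K) (α : (algebraicClosure K ℂ)) :
    (c.map (algebraMap K (algebraicClosure K ℂ))).rootMultiplicity α = order c (algebraMap (algebraicClosure K ℂ) ℂ α) := by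
  have h1 := Polynomial.eq_rootMultiplicity_map (p := c.map (algebraMap K (algebraicClosure K ℂ)))
    (f := algebraMap (algebraicClosure K ℂ) ℂ) (algebraMap (algebraicClosure K ℂ) ℂ).injective α
  rw [h1]
  simp only [order, Polynomial.map_map]
  rfl

theorem aeval_map' (c : Polynomial K) (t : ℂ) :
    Polynomial.aeval t (c.map (algebraMap K (algebraicClosure K ℂ))) = evalAt K t c := by
  rw [Polynomial.aeval_map_algebraMap]
  rfl

/-- Algebraic independence over a larger field. -/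
theorem algInd_closure {K₁ : Subfield ℂ} (hK : K ≤ K₁) {ρ : Type} {x : ρ → ℂ}
    (hx : AlgebraicIndependent K₁ x) : AlgebraicIndependent (algebraicClosure K ℂ) x := by
  letI : Algebra K K₁ := (Subfield.inclusion hK).toAlgebra
  have : IsScalarTower K K₁ ℂ := IsScalarTower.of_algebraMap_eq fun _ => rfl
  have h1 : AlgebraicIndependent K x :=
    hx.restrictScalars (algebraMap K K₁).injective
  exact h1.extendScalars (algebraicClosure K ℂ)

/-- The members near to one of sufficiently many degenerate parameters. -/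
theorem core (P : κ → MvPolynomial ((Fin n ⊕ Fin k₀) ⊕ Fin N) (Polynomial K)) (m : ℕ)
    (D : Finset (algebraicClosure K ℂ)) (Γ : Set (algebraicClosure K ℂ)) (hΓ : Γ.Finite) :
    ∃ W : Set (algebraicClosure K ℂ), W.Finite ∧ (∀ z ∈ D, z ∈ W) ∧ ∀ (t : ℂ) (K₁ : Subfield ℂ), K ≤ K₁ →
      (∀ α ∈ D, t ≠ algebraMap (algebraicClosure K ℂ) ℂ α) →
      (∀ (r : ℕ) (cls : Fin n → Option (Fin r)) (d : Fin n → ℕ) (L : Submodule ℚ (Fin k₀ → ℚ)),
        (∀ i, 0 < d i) → r + Module.finrank ℚ L + m < n + k₀ →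
        ∃ α ∈ D, (∀ (ρ : Type) (x : ρ → ℂ), AlgebraicIndependent K₁ x →
          ∃ V : ValuationSubring ℂ, V.valuation (t - algebraMap (algebraicClosure K ℂ) ℂ α) < 1 ∧
            (∀ z ∈ W, algebraMap (algebraicClosure K ℂ) ℂ z ∈ V) ∧ ∀ j, V.valuation (x j) = 1) ∧
          ∀ w ∈ Trop (algebraMap (algebraicClosure K ℂ) ℂ α) P, ¬ Compatible cls d L w) →
      ∀ x ∈ member t P,
        ∀ (r : ℕ) (Z : SpecialVariety (algebraMap (Algebra.adjoin ℤ (algebraMap (algebraicClosure K ℂ) ℂ '' Γ)) ℂ) n r)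
        (M : Submodule ℤ (Fin k₀ → ℤ)) (η : Fin k₀ → ℂ),
        (∀ j, η j ≠ 0 ∧ (algebraMap (Algebra.adjoin ℤ (algebraMap (algebraicClosure K ℂ) ℂ '' Γ)) ℂ).IsIntegralElem
          (η j) ∧ (algebraMap (Algebra.adjoin ℤ (algebraMap (algebraicClosure K ℂ) ℂ '' Γ)) ℂ).IsIntegralElem
          (η j)⁻¹) →
        (fun i => x (Sum.inl i)) ∈ Z.locus → (fun j => x (Sum.inr j)) ∈ coset M η →
        ∀ S : Finset (Fin n ⊕ Fin k₀), AlgebraicIndependent K₁ (fun i : S => x i) →
        S.card + n + Module.finrank ℤ M ≤ r + m := by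
  classical
  have hcl : IsAlgClosure K (algebraicClosure K ℂ) := inferInstance
  let ι := Σ q : κ, {β // β ∈ (P q).support}
  obtain ⟨W, hW, hΓW, hDW, hnear⟩ := near' (k := (algebraicClosure K ℂ)) (ι := ι)
    (fun x => ((P x.1).coeff x.2).map (algebraMap K (algebraicClosure K ℂ)))
    (fun x => by
      rw [Polynomial.map_ne_zero_iff (algebraMap K (algebraicClosure K ℂ)).injective]
      exact mem_support_iff.1 x.2.2) D Γ hΓ
  refine ⟨W, hW, hDW, fun t K₁ hK htD hgood x hx r Z M η hη hxZ hxC S hS => ?_⟩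
  obtain ⟨hx0, y, hy⟩ := hx
  have hSk : AlgebraicIndependent (algebraicClosure K ℂ) (fun i : S => x i) := algInd_closure hK hS
  have hd : ∀ i, 0 < (Z.mat i).det.toNat := fun i => by
    have := Z.det_pos i
    omega
  have hrel : ∀ i j l, Z.cls i = some l → Z.cls j = some l →
      IsIntegral (Algebra.adjoin ℤ {x (Sum.inl i)}) (x (Sum.inl j)) ∧
      Polynomial.eval₂ (Polynomial.aeval (x (Sum.inl i)) : Polynomial ℂ →ₐ[ℂ] ℂ).toRingHom
        (x (Sum.inl j)) (W282.ZP.Psi ((Z.mat i).det.toNat * (Z.mat j).det.toNat)) = 0 := by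
    intro i j l hi hj
    have h5 := rel_of_locus Z hxZ i j l hi hj
    rw [toNat_mul' (Z.det_pos i) (Z.det_pos j)] at h5
    exact h5
  have h1 : ∀ i, Z.cls i = none →
      IsIntegral (Algebra.adjoin ℤ (algebraMap (algebraicClosure K ℂ) ℂ '' Γ)) (x (Sum.inl i)) := by
    intro i hi
    obtain ⟨z, hz⟩ := hxZ
    have h2 : x (Sum.inl i) = Z.const i := (hz i).1 hi
    rw [h2]
    rcases Z.allowed i with ⟨τ, hτ, hc⟩ | h
    · rw [hc]
      exact (singular_modulus_integral τ hτ).tower_top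
    · exact h
  have hηint : ∀ j, IsIntegral (Algebra.adjoin ℤ (algebraMap (algebraicClosure K ℂ) ℂ '' Γ)) (η j) ∧
      IsIntegral (Algebra.adjoin ℤ (algebraMap (algebraicClosure K ℂ) ℂ '' Γ)) (η j)⁻¹ := fun j =>
    ⟨(hη j).2.1, (hη j).2.2⟩
  obtain ⟨r', cls', M', hr', hcls', hV'⟩ := reduce (Λ := (algebraicClosure K ℂ)) (F := (algebraicClosure K ℂ)) Z.cls
    (fun i => (Z.mat i).det.toNat) x M η hd (fun i hi => alg_of_int Γ (h1 i hi)) hrel hx0
    (fun j => by
      have h5 : IsAlgebraic (algebraicClosure K ℂ) (η j) := alg_of_int Γ (hηint j).1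
      have h6 : IsAlgebraic K (η j) := by
        have : Algebra.IsAlgebraic K (algebraicClosure K ℂ) := hcl.isAlgebraic
        exact h5.restrictScalars K
      exact ⟨⟨η j, mem_algebraicClosure_iff.2 h6⟩, rfl⟩)
    hxC.2 S hSk hSk
  by_contra hcon
  push Not at hcon
  have hrank := Pool.Agent.Y199.ZF.finrank_perp M'
  obtain ⟨α, hα, hV, hno⟩ := hgood r' cls' (fun i => (Z.mat i).det.toNat)
    (Pool.Agent.Y199.ZF.perp M') hd (by omega)
  obtain ⟨V, hV1, hVW, hVx⟩ := hV S (fun i : S => x i) hS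
  have hΓV : ∀ z ∈ Γ, algebraMap (algebraicClosure K ℂ) ℂ z ∈ V := fun z hz => hVW z (hΓW hz)
  obtain ⟨hc1, hc2⟩ := hV' V (fun i hi => v_le_of_int Γ V hΓV (h1 i hi)) hVx (fun j => by
    refine le_antisymm (v_le_of_int Γ V hΓV (hηint j).1) ?_
    have h5 := v_le_of_int Γ V hΓV (hηint j).2
    rw [map_inv₀] at h5
    have h6 : V.valuation (η j) ≠ 0 := (Valuation.ne_zero_iff _).2 (hη j).1
    exact (inv_le_one₀ (zero_lt_iff.2 h6)).1 h5)
  have htα : V.valuation (t - algebraMap (algebraicClosure K ℂ) ℂ α) ≠ 0 := by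
    intro h0
    have h5 : t - algebraMap (algebraicClosure K ℂ) ℂ α = 0 := (map_eq_zero _).1 h0
    exact htD α hα (sub_eq_zero.1 h5)
  obtain ⟨w, hw1, hw2⟩ := compat_point V (V.valuation (t - algebraMap (algebraicClosure K ℂ) ℂ α)) htα hV1
    (fun q => (P q).support) (fun q β => evalAt K t ((P q).coeff β))
    (fun q β => order ((P q).coeff β) (algebraMap (algebraicClosure K ℂ) ℂ α))
    (fun q β hβ => by
      have h5 := hnear V hVW α hα t hV1 ⟨q, β, hβ⟩
      rw [aeval_map', order_map] at h5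
      exact h5) (Sum.elim x y) (fun q => by
        have h5 := hy q
        rw [eval₂_eq'] at h5
        exact h5) cls' (fun i => (Z.mat i).det.toNat) hd hc1
    (fun i j c hi hj => by
      obtain ⟨c', hi', hj'⟩ := hcls' i j c hi hj
      exact (hrel i j c' hi' hj').2) hx0 M' hc2
  exact hno w hw1 hw2

/-- The places for a transcendental parameter. -/
theorem exists_place_trans {K₁ : Subfield ℂ} (hK : K ≤ K₁) {t : ℂ} (ht : Transcendental K t)
    (htK : t ∈ K₁) (α : (algebraicClosure K ℂ)) {ρ : Type} (x : ρ → ℂ) (hx : AlgebraicIndependent K₁ x) :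
    ∃ V : ValuationSubring ℂ, V.valuation (t - algebraMap (algebraicClosure K ℂ) ℂ α) < 1 ∧
      (∀ z : (algebraicClosure K ℂ), algebraMap (algebraicClosure K ℂ) ℂ z ∈ V) ∧ ∀ j, V.valuation (x j) = 1 := by
  classical
  have hcl : Algebra.IsAlgebraic K (algebraicClosure K ℂ) := (inferInstance : IsAlgClosure K (algebraicClosure K ℂ)).isAlgebraic
  have ht' : Transcendental (algebraicClosure K ℂ) t := fun h => ht (h.restrictScalars K)
  let k₁ := algebraicClosure K₁ ℂ
  have hx1 : AlgebraicIndependent k₁ x := hx.extendScalars k₁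
  letI : Algebra (Polynomial (algebraicClosure K ℂ)) ℂ :=
    (Polynomial.aeval t : Polynomial (algebraicClosure K ℂ) →ₐ[(algebraicClosure K ℂ)] ℂ).toRingHom.toAlgebra
  have halg : ∀ P : Polynomial (algebraicClosure K ℂ), algebraMap (Polynomial (algebraicClosure K ℂ)) ℂ P = Polynomial.aeval t P :=
    fun _ => rfl
  have hmem : ∀ P : Polynomial (algebraicClosure K ℂ), Polynomial.aeval t P ∈ k₁ := by
    intro P
    rw [Polynomial.aeval_eq_sum_range]
    refine sum_mem fun i _ => ?_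
    rw [Algebra.smul_def]
    refine mul_mem ?_ (pow_mem ?_ i)
    · have h1 : IsAlgebraic K (algebraMap (algebraicClosure K ℂ) ℂ (P.coeff i)) :=
        mem_algebraicClosure_iff.1 (P.coeff i).2
      letI : Algebra K K₁ := (Subfield.inclusion hK).toAlgebra
      have : IsScalarTower K K₁ ℂ := IsScalarTower.of_algebraMap_eq fun _ => rfl
      exact mem_algebraicClosure_iff.2 (h1.tower_top K₁)
    · exact (algebraMap K₁ k₁ ⟨t, htK⟩).2
  let g : Polynomial (algebraicClosure K ℂ) →+* k₁ :=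
    (Polynomial.aeval t : Polynomial (algebraicClosure K ℂ) →ₐ[(algebraicClosure K ℂ)] ℂ).toRingHom.codRestrict k₁ hmem
  letI : Algebra (Polynomial (algebraicClosure K ℂ)) k₁ := g.toAlgebra
  have hT : IsScalarTower (Polynomial (algebraicClosure K ℂ)) k₁ ℂ := IsScalarTower.of_algebraMap_eq fun _ => rfl
  have hinj : Function.Injective (algebraMap (Polynomial (algebraicClosure K ℂ)) k₁) := by
    intro P Q h
    have h1 : Polynomial.aeval t P = Polynomial.aeval t Q := congrArg Subtype.val h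
    exact (transcendental_iff_injective.1 ht') h1
  have hx2 : AlgebraicIndependent (Polynomial (algebraicClosure K ℂ)) x := hx1.restrictScalars hinj
  have hp : (Ideal.span {(Polynomial.X - Polynomial.C α : Polynomial (algebraicClosure K ℂ))}).IsPrime :=
    (Ideal.span_singleton_prime (Polynomial.X_sub_C_ne_zero α)).2 (Polynomial.prime_X_sub_C α)
  obtain ⟨V, hV1, hV2⟩ := Pool.Agent.Y152.BD.exists_place_gauss
    (Ideal.span {(Polynomial.X - Polynomial.C α : Polynomial (algebraicClosure K ℂ))}) x hx2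
  refine ⟨V, ?_, fun z => ?_, fun j => ?_⟩
  · have h1 := (hV2 (C (Polynomial.X - Polynomial.C α))).2 (by
      rw [MvPolynomial.map_C]
      rw [Ideal.Quotient.eq_zero_iff_mem.2 (Ideal.mem_span_singleton_self _), C_0])
    rw [MvPolynomial.aeval_C, halg, map_sub, Polynomial.aeval_X, Polynomial.aeval_C] at h1
    exact h1
  · have h1 := hV1 (C (Polynomial.C z))
    rw [MvPolynomial.aeval_C, halg, Polynomial.aeval_C] at h1
    exact (ValuationSubring.valuation_le_one_iff _ _).1 h1
  · have h1 := hV1 (X j)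
    rw [aeval_X] at h1
    refine le_antisymm h1 (not_lt.1 fun h2 => ?_)
    have h3 := (hV2 (X j)).1 (by rw [aeval_X]; exact h2)
    rw [MvPolynomial.map_X] at h3
    have : Nontrivial (Polynomial (algebraicClosure K ℂ) ⧸ Ideal.span {(Polynomial.X - Polynomial.C α :
      Polynomial (algebraicClosure K ℂ))}) := Ideal.Quotient.nontrivial_iff.2 hp.ne_top
    exact MvPolynomial.X_ne_zero j h3

end Core

/-- From points to irreducible closed subsets. -/
theorem noAtypical_of_points {Λ : Type} [CommRing Λ] {f : Λ →+* ℂ} (K : Subfield ℂ) [Countable K]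
    {n k m : ℕ} (X : Set (Fin n ⊕ Fin k → ℂ)) (hX : ∀ x ∈ X, ∀ j, x (Sum.inr j) ≠ 0)
    (h : ∀ x ∈ X, ∀ (r : ℕ) (Z : SpecialVariety f n r) (M : Submodule ℤ (Fin k → ℤ))
      (η : Fin k → ℂ),
      (∀ j, η j ≠ 0 ∧ f.IsIntegralElem (η j) ∧ f.IsIntegralElem (η j)⁻¹) →
      (fun i => x (Sum.inl i)) ∈ Z.locus → (fun j => x (Sum.inr j)) ∈ coset M η →
      ∀ S : Finset (Fin n ⊕ Fin k), AlgebraicIndependent K (fun i : S => x i) →
      S.card + n + Module.finrank ℤ M ≤ r + m) : NoAtypical f K m X := by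
  classical
  intro r Z M η hη
  refine ⟨?_, fun x hx hxZ hxC S hS => h x hx r Z M η hη hxZ hxC S hS⟩
  intro W' hW' hcl' hprime
  obtain ⟨w, hw⟩ := nonempty_of_prime hprime
  obtain ⟨x, hxW, hx0, T', hT', hdim⟩ := Pool.Agent.W282.SI.generic_dim' K W' hprime
    (β := Fin k) (fun j => MvPolynomial.X (Sum.inr j)) (by
      intro j hj
      rw [mem_idealOf] at hj
      have h2 := hj w hw
      rw [eval_X] at h2
      exact hX w (hW' hw).1 j h2)
  have hxA : x ∈ W' := hcl' x hxW fun j => by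
    have h2 := hx0 j
    rwa [eval_X] at h2
  have h2 := h x (hW' hxA).1 r Z M η hη (hW' hxA).2.1 (hW' hxA).2.2 T' hT'
  calc zdim W' + (n : Cardinal) + (Module.finrank ℤ M : Cardinal) ≤
        (T'.card : Cardinal) + (n : Cardinal) + (Module.finrank ℤ M : Cardinal) := by gcongr
    _ = ((T'.card + n + Module.finrank ℤ M : ℕ) : Cardinal) := by push_cast; rfl
    _ ≤ ((r + m : ℕ) : Cardinal) := by exact_mod_cast h2
    _ = (r : Cardinal) + (m : Cardinal) := by push_cast; rfl

/-- **The tropical criterion** for the members of a family with parameter in a finitely generated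
field, ring or group of units. -/
theorem familyT (K : Subfield ℂ) [Countable K] (κ : Type) [Finite κ] (n k₀ N m : ℕ)
    (P : κ → MvPolynomial ((Fin n ⊕ Fin k₀) ⊕ Fin N) (Polynomial K)) (D : Finset ℂ)
    (hD : ∀ α ∈ D, IsAlgebraic K α) (Γ : Finset ℂ) (hΓ : ∀ γ ∈ Γ, IsAlgebraic K γ)
    (F : Finset ℂ) (hF : ∀ z ∈ F, IsAlgebraic K z) :
    (Generic m 1 P D → ∀ t : ℂ, Transcendental K t → ∀ (K₁ : Subfield ℂ) [Countable K₁],
      K ≤ K₁ → t ∈ K₁ →
        NoAtypical (algebraMap (Algebra.adjoin ℤ (Γ : Set ℂ)) ℂ) K₁ m (member t P)) ∧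
    (Generic m 3 P D →
      {t : ℂ | t ∈ Subfield.closure (F : Set ℂ) ∧
        ¬ NoAtypical (algebraMap (Algebra.adjoin ℤ (Γ : Set ℂ)) ℂ) K m (member t P)}.Finite) ∧
    (Generic m 2 P D →
      {t : ℂ | t ∈ Subring.closure (F : Set ℂ) ∧
        ¬ NoAtypical (algebraMap (Algebra.adjoin ℤ (Γ : Set ℂ)) ℂ) K m (member t P)}.Finite) ∧
    (Generic m 1 P (D.erase 0) →
      {t : ℂ | (t ∈ Subring.closure (F : Set ℂ) ∧ t ≠ 0 ∧ t⁻¹ ∈ Subring.closure (F : Set ℂ)) ∧
        ¬ NoAtypical (algebraMap (Algebra.adjoin ℤ (Γ : Set ℂ)) ℂ) K m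
          (member t P)}.Finite) := by
  classical
  let k := algebraicClosure K ℂ
  have hcl : IsAlgClosure K k := inferInstance
  have hac : IsAlgClosed k := hcl.isAlgClosed
  have hc0k : CharZero k := inferInstance
  -- finite sets of algebraic numbers
  have hlift : ∀ S : Finset ℂ, (∀ z ∈ S, IsAlgebraic K z) → ∃ S' : Finset k,
      (∀ z : k, z ∈ S' ↔ algebraMap k ℂ z ∈ S) ∧
      algebraMap k ℂ '' (S' : Set k) = (S : Set ℂ) := by
    intro S hS
    have hmem : ∀ z ∈ S, z ∈ algebraicClosure K ℂ := fun z hz =>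
      mem_algebraicClosure_iff'.2 (hS z hz).isIntegral
    have h1 : ∀ z : k, z ∈ (S.attach.image fun z => (⟨z.1, hmem z.1 z.2⟩ : k)) ↔
        algebraMap k ℂ z ∈ S := by
      intro z
      constructor
      · intro hz
        obtain ⟨w, _, hw⟩ := Finset.mem_image.1 hz
        rw [← hw]
        exact w.2
      · intro hz
        exact Finset.mem_image.2 ⟨⟨z.1, hz⟩, Finset.mem_attach _ _, rfl⟩
    refine ⟨S.attach.image fun z => ⟨z.1, hmem z.1 z.2⟩, h1, ?_⟩
    ext z
    constructor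
    · rintro ⟨w, hw, rfl⟩
      exact (h1 w).1 hw
    · intro hz
      exact ⟨⟨z, hmem z hz⟩, (h1 _).2 hz, rfl⟩
  obtain ⟨Γf, -, hΓf⟩ := hlift Γ hΓ
  let Γ' : Set k := (Γf : Set k)
  have hΓ' : algebraMap k ℂ '' Γ' = (Γ : Set ℂ) := hΓf
  obtain ⟨F', -, hF'⟩ := hlift F hF
  obtain ⟨D', hD', hD'im⟩ := hlift D hD
  obtain ⟨W₀, hW₀, hDW, hcore⟩ := core P m D' Γ' Γf.finite_toSet
  let W : Finset k := hW₀.toFinset
  have hWW : (W : Set k) = W₀ := Set.Finite.coe_toFinset _
  -- the members which are near to one of the elements of each large subset of `D`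
  have core1 : ∀ (t : k), t ∉ D' → (∀ (r : ℕ) (cls : Fin n → Option (Fin r)) (d : Fin n → ℕ)
      (L : Submodule ℚ (Fin k₀ → ℚ)), (∀ i, 0 < d i) → r + Module.finrank ℚ L + m < n + k₀ →
        ∃ α ∈ D', ¬ Bad (W : Set k) t α ∧
          ∀ w ∈ Trop (algebraMap k ℂ α) P, ¬ Compatible cls d L w) →
      NoAtypical (algebraMap (Algebra.adjoin ℤ (Γ : Set ℂ)) ℂ) K m
        (member (algebraMap k ℂ t) P) := by
    intro t htD hgood
    refine noAtypical_of_points K _ (fun x hx => hx.1) ?_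
    have h1 := hcore (algebraMap k ℂ t) K le_rfl (fun α hα h => htD (by
      rw [(algebraMap k ℂ).injective h]
      exact hα)) (fun r cls d L hd hr => by
      obtain ⟨α, hα, hbad, hno⟩ := hgood r cls d L hd hr
      refine ⟨α, hα, fun ρ x hx => ?_, hno⟩
      rw [hWW] at hbad
      obtain ⟨V, h1, h2, h3⟩ := exists_placeU W₀ (hDW α hα) (by rintro rfl; exact htD hα) hbad x
        (hx.extendScalars k)
      refine ⟨V, ?_, h2, h3⟩
      rw [map_sub] at h1
      exact h1)
    rw [hΓ'] at h1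
    exact h1
  have hsub : ∀ I ⊆ D, ∃ I' ⊆ D', I'.card = I.card ∧ ∀ z ∈ I', algebraMap k ℂ z ∈ I := by
    intro I hI
    refine ⟨D'.filter fun z => algebraMap k ℂ z ∈ I, Finset.filter_subset _ _, ?_, fun z hz =>
      (Finset.mem_filter.1 hz).2⟩
    rw [← Finset.card_image_of_injective _ (algebraMap k ℂ).injective]
    congr 1
    ext z
    simp only [Finset.mem_image, Finset.mem_filter]
    constructor
    · rintro ⟨w, ⟨-, hw⟩, rfl⟩
      exact hw
    · intro hz
      have h1 : z ∈ algebraMap k ℂ '' (D' : Set k) := by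
        rw [hD'im]
        exact hI hz
      obtain ⟨w, hw, rfl⟩ := h1
      exact ⟨w, ⟨hw, hz⟩, rfl⟩
  -- the parameters lie in the algebraic closure
  have hfield : ∀ t ∈ Subfield.closure (F : Set ℂ), ∃ t' : k,
      t' ∈ Subfield.closure (F' : Set k) ∧ algebraMap k ℂ t' = t := by
    intro t ht
    rw [← hF', ← RingHom.map_field_closure] at ht
    exact Subfield.mem_map.1 ht
  have hring : ∀ t ∈ Subring.closure (F : Set ℂ), ∃ t' : k,
      t' ∈ Subring.closure (F' : Set k) ∧ algebraMap k ℂ t' = t := by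
    intro t ht
    rw [← hF', ← RingHom.map_closure] at ht
    exact Subring.mem_map.1 ht
  have hDfin : ((algebraMap k ℂ) '' (D' : Set k)).Finite := D'.finite_toSet.image _
  refine ⟨fun hM t ht K₁ _ hK htK => ?_, fun hM => ?_, fun hM => ?_, fun hM => ?_⟩
  · refine noAtypical_of_points K₁ _ (fun x hx => hx.1) ?_
    have h1 := hcore t K₁ hK (fun α hα h => ht (by
      rw [h]
      exact mem_algebraicClosure_iff.1 α.2)) (fun r cls d L hd hr => by
      obtain ⟨I, hI, hIc, hno⟩ := hM r cls d L hd hr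
      obtain ⟨I', hI', hIc', hII⟩ := hsub I hI
      obtain ⟨a, ha⟩ := Finset.card_pos.1 (show 0 < I'.card by omega)
      refine ⟨a, hI' ha, fun ρ x hx => ?_, hno _ (hII a ha)⟩
      obtain ⟨V, h1, h2, h3⟩ := exists_place_trans hK ht htK a x hx
      exact ⟨V, h1, fun z _ => h2 z, h3⟩)
    rw [hΓ'] at h1
    exact h1
  · let T3 : Finset (k × k × k) := (D' ×ˢ D' ×ˢ D').filter fun p =>
      p.1 ≠ p.2.1 ∧ p.1 ≠ p.2.2 ∧ p.2.1 ≠ p.2.2
    have hfin : (⋃ p ∈ T3, {t : k | t ∈ Subfield.closure (F' : Set k) ∧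
        Bad (W : Set k) t p.1 ∧ Bad (W : Set k) t p.2.1 ∧ Bad (W : Set k) t p.2.2}).Finite := by
      refine Set.Finite.biUnion T3.finite_toSet fun p hp => ?_
      have h1 := (Finset.mem_filter.1 hp).2
      exact fin_field W F' h1.1 h1.2.1 h1.2.2
    refine (hDfin.union (hfin.image (algebraMap k ℂ))).subset ?_
    rintro t ⟨ht, ht'⟩
    obtain ⟨t', ht1, rfl⟩ := hfield t ht
    by_cases htR : t' ∈ D'
    · exact Or.inl ⟨t', htR, rfl⟩
    refine Or.inr ⟨t', ?_, rfl⟩
    by_contra hcon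
    refine ht' (core1 t' htR fun r cls d L hd hr => ?_)
    obtain ⟨I, hI, hIc, hno⟩ := hM r cls d L hd hr
    obtain ⟨I', hI', hIc', hII⟩ := hsub I hI
    by_contra hall
    push Not at hall
    have hbad : ∀ z ∈ I', Bad (W : Set k) t' z := by
      intro z hz
      by_contra hb
      obtain ⟨w, hw, hw'⟩ := hall z (hI' hz) hb
      exact hno _ (hII z hz) w hw hw'
    obtain ⟨a, b, c, ha, hb, hc, hab, hac, hbc⟩ := Finset.two_lt_card_iff.1
      (show 2 < I'.card by omega)
    apply hcon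
    rw [Set.mem_iUnion₂]
    refine ⟨(a, b, c), Finset.mem_filter.2 ⟨?_, hab, hac, hbc⟩, ht1, hbad a ha, hbad b hb,
      hbad c hc⟩
    simp only [Finset.mem_product]
    exact ⟨hI' ha, hI' hb, hI' hc⟩
  · let T2 : Finset (k × k) := (D' ×ˢ D').filter fun p => p.1 ≠ p.2
    have hfin : (⋃ p ∈ T2, {t : k | t ∈ Subring.closure (F' : Set k) ∧
        Bad (W : Set k) t p.1 ∧ Bad (W : Set k) t p.2}).Finite := by
      refine Set.Finite.biUnion T2.finite_toSet fun p hp => ?_
      exact fin_ring W F' (Finset.mem_filter.1 hp).2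
    refine (hDfin.union (hfin.image (algebraMap k ℂ))).subset ?_
    rintro t ⟨ht, ht'⟩
    obtain ⟨t', ht1, rfl⟩ := hring t ht
    by_cases htR : t' ∈ D'
    · exact Or.inl ⟨t', htR, rfl⟩
    refine Or.inr ⟨t', ?_, rfl⟩
    by_contra hcon
    refine ht' (core1 t' htR fun r cls d L hd hr => ?_)
    obtain ⟨I, hI, hIc, hno⟩ := hM r cls d L hd hr
    obtain ⟨I', hI', hIc', hII⟩ := hsub I hI
    by_contra hall
    push Not at hall
    have hbad : ∀ z ∈ I', Bad (W : Set k) t' z := by
      intro z hz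
      by_contra hb
      obtain ⟨w, hw, hw'⟩ := hall z (hI' hz) hb
      exact hno _ (hII z hz) w hw hw'
    obtain ⟨a, b, ha, hb, hab⟩ := Finset.one_lt_card_iff.1 (show 1 < I'.card by omega)
    apply hcon
    rw [Set.mem_iUnion₂]
    refine ⟨(a, b), Finset.mem_filter.2 ⟨?_, hab⟩, ht1, hbad a ha, hbad b hb⟩
    simp only [Finset.mem_product]
    exact ⟨hI' ha, hI' hb⟩
  · let W' : Finset k := W ∪ F'
    let U : Finset k := D'.filter fun a => a ≠ 0
    have hfin : (⋃ a ∈ U, {t : k | t ∈ Subring.closure (F' : Set k) ∧ Bad (W' : Set k) t a ∧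
        Bad (W' : Set k) t 0}).Finite := by
      refine Set.Finite.biUnion U.finite_toSet fun a ha => ?_
      exact fin_ring W' F' (Finset.mem_filter.1 ha).2
    refine (hDfin.union (hfin.image (algebraMap k ℂ))).subset ?_
    rintro t ⟨⟨ht, ht0, hti⟩, ht'⟩
    obtain ⟨t', ht1, rfl⟩ := hring t ht
    obtain ⟨t'', ht2, he⟩ := hring _ hti
    have ht0' : t' ≠ 0 := fun h => ht0 (by rw [h, map_zero])
    have he' : t'' = t'⁻¹ := (algebraMap k ℂ).injective (by rw [he, map_inv₀])
    rw [he'] at ht2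
    by_cases htR : t' ∈ D'
    · exact Or.inl ⟨t', htR, rfl⟩
    refine Or.inr ⟨t', ?_, rfl⟩
    by_contra hcon
    refine ht' (core1 t' htR fun r cls d L hd hr => ?_)
    obtain ⟨I, hI, hIc, hno⟩ := hM r cls d L hd hr
    obtain ⟨I', hI', hIc', hII⟩ := hsub I fun z hz => Finset.mem_of_mem_erase (hI hz)
    by_contra hall
    push Not at hall
    have hbad : ∀ z ∈ I', Bad (W : Set k) t' z := by
      intro z hz
      by_contra hb
      obtain ⟨w, hw, hw'⟩ := hall z (hI' hz) hb
      exact hno _ (hII z hz) w hw hw'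
    obtain ⟨a, ha⟩ := Finset.card_pos.1 (show 0 < I'.card by omega)
    have ha0 : a ≠ 0 := by
      intro h0
      have h1 := hI (hII a ha)
      rw [h0, map_zero] at h1
      exact (Finset.mem_erase.1 h1).1 rfl
    apply hcon
    rw [Set.mem_iUnion₂]
    refine ⟨a, Finset.mem_filter.2 ⟨hI' ha, ha0⟩, ht1, (hbad a ha).mono (by
      intro z hz
      simp only [W', Finset.coe_union]
      exact Or.inl hz), ht0', ?_⟩
    rw [sub_zero]
    refine Subring.closure_mono ?_ ht2
    intro z hz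
    refine Set.mem_insert_of_mem _ ?_
    simp only [W', Finset.coe_union]
    exact Or.inr hz

end Pool.Agent.R424.TG
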