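import Pool.Agent.Y152.RP.Main
import Pool.Agent.Y152.RP.PlaceM
import Pool.Agent.R424.TG.Main

/-!
Arbitrary one-parameter families of subsets of `Y(1)^n × G_m^k` and algebraic parameters of bounded
degree, radical parameters and roots of unity: the tropical criterion (helper file).
-/

set_option autoImplicit false

namespace Pool.Agent.R424.TG

open MvPolynomial Pool.Agent.Y152.RP
open Pool.Agent.Y152.RP.FamM (NoAtypical ManyPrimes)

/-- For every type `(cls, d, L)` of special subvarieties of dimension less than `n + k - m` there are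
at least `s` indices `l` such that the tropicalization at `α l` has no compatible point. -/
def GenericAt {K : Subfield ℂ} {n k N M : ℕ} {κ : Type} (m s : ℕ)
    (P : κ → MvPolynomial ((Fin n ⊕ Fin k) ⊕ Fin N) (Polynomial K)) (α : Fin M → ℚ) : Prop :=
  ∀ (r : ℕ) (cls : Fin n → Option (Fin r)) (d : Fin n → ℕ) (L : Submodule ℚ (Fin k → ℚ)),
    (∀ i, 0 < d i) → r + Module.finrank ℚ L + m < n + k →
      ∃ I : Finset (Fin M), s ≤ I.card ∧
        ∀ l ∈ I, ∀ w ∈ Trop ((α l : ℚ) : ℂ) P, ¬ Compatible cls d L w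

theorem manyPrimes_zero {M : ℕ} (A : Set ℂ) (hA : ∀ t ∈ A, IsAlgebraic ℤ t) (α : Fin M → ℚ) :
    ManyPrimes A 0 α := by
  intro D
  refine Set.finite_empty.subset ?_
  rintro t ⟨ht, hno⟩
  apply hno
  obtain ⟨P, hP0, hPt⟩ := hA t ht
  obtain ⟨G, hG, -, hGt⟩ := Pool.Agent.Y152.BD.DegLE.exists_irreducible (d := P.natDegree)
    (τ := t) ⟨P, hP0, le_rfl, hPt⟩
  exact ⟨fun l => l.elim0, fun l => l.elim0, G, hG, hGt, fun l => l.elim0⟩

/-- **The tropical criterion** for sets of algebraic parameters. -/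
theorem algT (K : Subfield ℂ) [Countable K] (κ : Type) [Finite κ] (n k₀ N m M s : ℕ)
    (P : κ → MvPolynomial ((Fin n ⊕ Fin k₀) ⊕ Fin N) (Polynomial K)) (α : Fin M → ℚ)
    (hgen : GenericAt m s P α) (Γ : Finset ℂ) (hΓ : ∀ γ ∈ Γ, IsAlgebraic K γ)
    (A : Set ℂ) (hA : ∀ t ∈ A, IsAlgebraic ℤ t)
    (hmany₀ : s ≤ M → ManyPrimes A (M + 1 - s) α) :
    {t : ℂ | t ∈ A ∧ ¬ NoAtypical (algebraMap (Algebra.adjoin ℤ (Γ : Set ℂ)) ℂ) K m
      (member t P)}.Finite := by
  classical
  have hmany : ManyPrimes A (M + 1 - s) α := by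
    by_cases h : s ≤ M
    · exact hmany₀ h
    · have h0 : M + 1 - s = 0 := by omega
      rw [h0]
      exact manyPrimes_zero A hA α
  let k := algebraicClosure K ℂ
  have hcl : IsAlgClosure K k := inferInstance
  have hc0k : CharZero k := inferInstance
  have hcast : ∀ t : ℚ, algebraMap k ℂ ((t : ℚ) : k) = (t : ℂ) := fun t => map_ratCast _ t
  have hmem : ∀ z ∈ Γ, z ∈ algebraicClosure K ℂ := fun z hz =>
    mem_algebraicClosure_iff'.2 (hΓ z hz).isIntegral
  obtain ⟨Γ', hΓ'⟩ : ∃ Γ' : Finset k, algebraMap k ℂ '' (Γ' : Set k) = (Γ : Set ℂ) := by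
    refine ⟨Γ.attach.image fun z => ⟨z.1, hmem z.1 z.2⟩, ?_⟩
    ext z
    constructor
    · rintro ⟨w, hw, rfl⟩
      obtain ⟨z', -, hz'⟩ := Finset.mem_image.1 (Finset.mem_coe.1 hw)
      rw [← hz']
      exact z'.2
    · intro hz
      exact ⟨⟨z, hmem z hz⟩, Finset.mem_coe.2 (Finset.mem_image.2
        ⟨⟨z, hz⟩, Finset.mem_attach _ _, rfl⟩), rfl⟩
  let D : Finset k := Finset.univ.image fun l => ((α l : ℚ) : k)
  obtain ⟨W, hW, hDW, hcore⟩ := core P m D (Γ' : Set k) Γ'.finite_toSet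
  obtain ⟨D₀, hD₀⟩ := exists_placesU (k := k) (L := M + 1 - s) W hW α
  have hDfin : ((algebraMap k ℂ) '' (D : Set k)).Finite := D.finite_toSet.image _
  refine (hDfin.union (hmany D₀)).subset ?_
  rintro t ⟨htA, ht⟩
  by_cases htD : t ∈ (algebraMap k ℂ) '' (D : Set k)
  · exact Or.inl htD
  refine Or.inr ⟨htA, ?_⟩
  rintro ⟨f, hf, G, hG, hGt, hp⟩
  apply ht
  -- the parameter is algebraic
  have htalg : IsAlgebraic K t := by
    have h1 : IsAlgebraic ℤ t := hA t htA
    exact h1.extendScalars (R := ℤ) (S := K) (by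
      intro a b hab
      have h2 : ((a : ℤ) : K) = ((b : ℤ) : K) := hab
      exact_mod_cast h2)
  obtain ⟨τ, hτ⟩ : ∃ τ : k, algebraMap k ℂ τ = t :=
    ⟨⟨t, mem_algebraicClosure_iff'.2 htalg.isIntegral⟩, rfl⟩
  refine noAtypical_of_points K _ (fun x hx => hx.1) ?_
  have h1 := hcore t K le_rfl (fun a ha h => htD ⟨a, ha, h.symm⟩) (fun r cls d L hd hr => by
    obtain ⟨I, hI, hno⟩ := hgen r cls d L hd hr
    -- one of the elements of `I` is good
    obtain ⟨l, hl⟩ : ∃ l, f l ∈ I := by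
      by_contra hnot
      push Not at hnot
      have h2 : (Finset.univ.image f).card = M + 1 - s := by
        rw [Finset.card_image_of_injective _ hf, Finset.card_univ, Fintype.card_fin]
      have h3 : Disjoint (Finset.univ.image f) I := by
        rw [Finset.disjoint_left]
        intro z hz hzI
        obtain ⟨l, -, rfl⟩ := Finset.mem_image.1 hz
        exact hnot l hzI
      have h4 := Finset.card_le_univ (Finset.univ.image f ∪ I)
      rw [Finset.card_union_of_disjoint h3, h2, Fintype.card_fin] at h4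
      omega
    refine ⟨((α (f l) : ℚ) : k), Finset.mem_image_of_mem _ (Finset.mem_univ _),
      fun ρ x hx => ?_, ?_⟩
    · obtain ⟨V, hV1, hV2, hV3⟩ := hD₀ τ f G hG (by rw [hτ]; exact hGt) hp ρ x
        (hx.extendScalars k) l
      refine ⟨V, ?_, hV2, hV3⟩
      rw [map_sub, hτ] at hV1
      exact hV1
    · rw [hcast]
      exact hno _ hl)
  rw [hΓ'] at h1
  exact h1

end Pool.Agent.R424.TG
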