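import Pool.Agent.Y152.BD.Place

/-!
Extension of a valuation ring such that given algebraically independent numbers are units (helper
file).
-/

set_option autoImplicit false

namespace Pool.Agent.R424.TG

open MvPolynomial

/-- A valuation ring of `ℂ` can be changed outside of a subfield `k` such that numbers which are
algebraically independent over `k` become units. -/
theorem gauss_ext {k : Type} [Field k] [Algebra k ℂ] (V₀ : ValuationSubring ℂ) {ρ : Type}
    (x : ρ → ℂ) (hx : AlgebraicIndependent k x) : ∃ V : ValuationSubring ℂ,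
      (∀ a : k, algebraMap k ℂ a ∈ V₀ → algebraMap k ℂ a ∈ V) ∧
      (∀ a : k, V₀.valuation (algebraMap k ℂ a) < 1 → V.valuation (algebraMap k ℂ a) < 1) ∧
      ∀ j, V.valuation (x j) = 1 := by
  classical
  let Λ : Subring k := (V₀.toSubring).comap (algebraMap k ℂ)
  let i1 : Algebra Λ ℂ := ((algebraMap k ℂ).comp Λ.subtype).toAlgebra
  have hmap : ∀ z : Λ, algebraMap Λ ℂ z = algebraMap k ℂ (z : k) := fun z => rfl
  have hT : IsScalarTower Λ k ℂ := IsScalarTower.of_algebraMap_eq fun z => rfl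
  have hinj : Function.Injective (algebraMap Λ k) := Subtype.val_injective
  have hx' : AlgebraicIndependent Λ x := hx.restrictScalars hinj
  let g : Λ →+* V₀ := ((algebraMap k ℂ).comp Λ.subtype).codRestrict V₀.toSubring fun z => z.2
  let 𝔭 : Ideal Λ := (IsLocalRing.maximalIdeal V₀).comap g
  have h𝔭 : 𝔭.IsPrime := Ideal.IsPrime.comap g
  obtain ⟨V, hV1, hV2⟩ := Pool.Agent.Y152.BD.exists_place_gauss 𝔭 x hx'
  refine ⟨V, fun a ha => ?_, fun a ha => ?_, fun j => ?_⟩
  · have h1 := hV1 (C (⟨a, ha⟩ : Λ))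
    rw [aeval_C, hmap] at h1
    exact (ValuationSubring.valuation_le_one_iff _ _).1 h1
  · have haV : algebraMap k ℂ a ∈ V₀ := (ValuationSubring.valuation_le_one_iff _ _).1 ha.le
    have haΛ : a ∈ Λ := haV
    have hmem : (⟨a, haΛ⟩ : Λ) ∈ 𝔭 :=
      (ValuationSubring.valuation_lt_one_iff V₀ (g ⟨a, haΛ⟩)).2 ha
    have h1 := (hV2 (C (⟨a, haΛ⟩ : Λ))).2 (by
      rw [MvPolynomial.map_C, (Ideal.Quotient.eq_zero_iff_mem).2 hmem, map_zero])
    rw [aeval_C, hmap] at h1
    exact h1
  · have h1 := hV1 (X j)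
    rw [aeval_X] at h1
    refine le_antisymm h1 (not_lt.1 fun h2 => ?_)
    have h3 := (hV2 (X j)).1 (by rw [aeval_X]; exact h2)
    rw [MvPolynomial.map_X] at h3
    have : Nontrivial (Λ ⧸ 𝔭) := Ideal.Quotient.nontrivial_iff.2 h𝔭.ne_top
    exact MvPolynomial.X_ne_zero j h3

end Pool.Agent.R424.TG
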