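import Pool.Agent.Y199.SG.ZPW
import Pool.Agent.R424.TG.Gauss
import Pool.Agent.R424.TG.Abs

/-!
Arbitrary families of subsets of `Y(1)^n × G_m^k` over an elliptic curve: the tropical criterion
(helper file).
-/

set_option autoImplicit false

namespace Pool.Agent.R424.TG

open MvPolynomial
open Pool.Agent.Y152.RP.FamM (NoAtypical)
open Pool.Agent.Y199.SG.ZPZ (Curve loc HasOrder alg_evalK near_all alg_of_mem)
open Pool.Agent.Y199.SG.ZPZ (v_unit)

/-- The member of the family at the point `p` of the curve: the points `x` of `Y(1)^n × G_m^k` for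
which there is a `y` such that all polynomials of the system, with the values of their coefficients
at `p`, vanish at `(x, y)`. -/
def memberE {n k N : ℕ} {κ : Type} (p : Fin 2 → ℂ)
    (P : κ → MvPolynomial ((Fin n ⊕ Fin k) ⊕ Fin N) (MvPolynomial (Fin 2) ℂ)) :
    Set (Fin n ⊕ Fin k → ℂ) :=
  {x | (∀ j, x (Sum.inr j) ≠ 0) ∧ ∃ y : Fin N → ℂ, ∀ q,
    eval₂ (eval p) (Sum.elim x y) (P q) = 0}

theorem memberE_eq {n k N : ℕ} {κ : Type} (p : Fin 2 → ℂ)
    (P : κ → MvPolynomial ((Fin n ⊕ Fin k) ⊕ Fin N) (MvPolynomial (Fin 2) ℂ)) :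
    memberE p P = solutions (fun q => (P q).support) (fun q β => eval p ((P q).coeff β)) := by
  unfold memberE solutions
  simp only [eval₂_eq']

/-- The criterion for the points of an elliptic curve which are near to all `Q l`. -/
theorem ellT (K : Subfield ℂ) [Countable K] (κ : Type) [Finite κ] (n k₀ N m M : ℕ) (a b : ℂ)
    (P : κ → MvPolynomial ((Fin n ⊕ Fin k₀) ⊕ Fin N) (MvPolynomial (Fin 2) ℂ))
    (Q : Fin M → Fin 2 → ℂ) (hQa : ∀ l i, IsAlgebraic K (Q l i))
    (e : Fin M → κ → (((Fin n ⊕ Fin k₀) ⊕ Fin N) →₀ ℕ) → ℕ)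
    (he : ∀ l q, ∀ β ∈ (P q).support, HasOrder K a b (Q l) ((P q).coeff β) (e l q β))
    (hgen : ∀ (r : ℕ) (cls : Fin n → Option (Fin r)) (d : Fin n → ℕ)
      (L : Submodule ℚ (Fin k₀ → ℚ)), (∀ i, 0 < d i) → r + Module.finrank ℚ L + m < n + k₀ →
      ∃ l, ∀ w, (∀ q, TropAt (P q).support (e l q) w) → ¬ Compatible cls d L w)
    (Γ : Finset ℂ) (hΓ : ∀ γ ∈ Γ, IsAlgebraic K γ) :
    ∃ W : Finset ℂ, ∀ p ∈ Curve a b, (∀ i, IsAlgebraic K (p i)) → (∀ l, loc (Q l) p ≠ 0) →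
      (∀ l, ∃ V : ValuationSubring ℂ, (∀ z ∈ W, z ∈ V) ∧ ∀ i, V.valuation (p i - Q l i) < 1) →
      NoAtypical (algebraMap (Algebra.adjoin ℤ (Γ : Set ℂ)) ℂ) K m (memberE p P) := by
  classical
  have := Fintype.ofFinite κ
  let k := algebraicClosure K ℂ
  have hmemk : ∀ z : ℂ, IsAlgebraic K z → ∃ z' : k, algebraMap k ℂ z' = z := fun z hz =>
    ⟨⟨z, mem_algebraicClosure_iff'.2 hz.isIntegral⟩, rfl⟩
  have hinvalg : ∀ z : ℂ, IsAlgebraic K z → IsAlgebraic K z⁻¹ := fun z hz => by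
    have h1 := inv_mem (mem_algebraicClosure_iff'.2 hz.isIntegral)
    exact (mem_algebraicClosure_iff'.1 h1).isAlgebraic
  have he' : ∀ (l : Fin M) (x : Σ q : κ, {β // β ∈ (P q).support}),
      HasOrder K a b (Q l) ((P x.1).coeff x.2) (e l x.1 x.2) := fun l x => he l x.1 x.2 x.2.2
  choose g h hg hh hg0 hh0 hgh using he'
  let W : Finset ℂ := Γ ∪ (Finset.univ.biUnion fun l => Finset.univ.image (Q l)) ∪
    Finset.univ.biUnion fun l => Finset.univ.biUnion fun x =>
      ((g l x).support.image fun d => (g l x).coeff d) ∪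
      ((h l x).support.image fun d => (h l x).coeff d) ∪
      {(eval (Q l) (g l x))⁻¹, (eval (Q l) (h l x))⁻¹}
  have hW : ∀ z ∈ W, IsAlgebraic K z := by
    intro z hz
    simp only [W, Finset.mem_union, Finset.mem_biUnion, Finset.mem_univ, true_and,
      Finset.mem_image, Finset.mem_insert, Finset.mem_singleton] at hz
    rcases hz with (hz | ⟨l, i, rfl⟩) | ⟨l, x, (⟨d, -, rfl⟩ | ⟨d, -, rfl⟩) | rfl | rfl⟩
    · exact hΓ z hz
    · exact hQa l i
    · exact hg l x d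
    · exact hh l x d
    · exact hinvalg _ (alg_evalK K _ _ (hg l x) (hQa l))
    · exact hinvalg _ (alg_evalK K _ _ (hh l x) (hQa l))
  refine ⟨W, fun p hp hpa hloc hnear => ?_⟩
  rw [memberE_eq]
  refine coreA K K le_rfl _ _ Γ hΓ fun r cls d L hd hr => ?_
  obtain ⟨l, hl⟩ := hgen r cls d L hd hr
  refine ⟨e l, hl, fun ρ x hx => ?_⟩
  have hxk : AlgebraicIndependent k x := hx.extendScalars k
  obtain ⟨V₀, hV₀W, hV₀n⟩ := hnear l
  obtain ⟨V, hV1, hV2, hV3⟩ := gauss_ext V₀ x hxk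
  have hWV : ∀ z ∈ W, z ∈ V := by
    intro z hz
    obtain ⟨z', rfl⟩ := hmemk z (hW z hz)
    exact hV1 z' (hV₀W _ hz)
  have hpQ : ∀ i, V.valuation (p i - Q l i) < 1 := by
    intro i
    obtain ⟨z', hz'⟩ := hmemk (p i - Q l i) (by
      have h1 := sub_mem (mem_algebraicClosure_iff'.2 (hpa i).isIntegral)
        (mem_algebraicClosure_iff'.2 (hQa l i).isIntegral)
      exact (mem_algebraicClosure_iff'.1 h1).isAlgebraic)
    rw [← hz']
    refine hV2 z' ?_
    rw [hz']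
    exact hV₀n i
  have hQV : ∀ i, Q l i ∈ V := fun i => hWV _ (Finset.mem_union_left _
    (Finset.mem_union_right _ (Finset.mem_biUnion.2 ⟨l, Finset.mem_univ _,
      Finset.mem_image_of_mem _ (Finset.mem_univ i)⟩)))
  have hsub : ∀ x, ∀ z ∈ ((g l x).support.image fun d => (g l x).coeff d) ∪
      ((h l x).support.image fun d => (h l x).coeff d) ∪
      {(eval (Q l) (g l x))⁻¹, (eval (Q l) (h l x))⁻¹}, z ∈ V := fun x z hz =>
    hWV _ (Finset.mem_union_right _ (Finset.mem_biUnion.2 ⟨l, Finset.mem_univ _,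
      Finset.mem_biUnion.2 ⟨x, Finset.mem_univ _, hz⟩⟩))
  have hcoef : ∀ (f : MvPolynomial (Fin 2) ℂ), (∀ d ∈ f.support, f.coeff d ∈ V) →
      ∀ d, f.coeff d ∈ V := by
    intro f hf d
    by_cases hd : d ∈ f.support
    · exact hf d hd
    · rw [notMem_support_iff.1 hd]
      exact zero_mem V
  refine ⟨V, V.valuation (loc (Q l) p), (Valuation.ne_zero_iff _).2 (hloc l), ?_,
    fun q β hβ => ?_, fun γ hγ => hWV γ (Finset.mem_union_left _ (Finset.mem_union_left _ hγ)), hV3⟩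
  · by_cases h2 : Q l 1 = 0
    · rw [loc, if_pos h2]
      have h3 := hpQ 1
      rw [h2, sub_zero] at h3
      exact h3
    · rw [loc, if_neg h2]
      exact hpQ 0
  · have hG := (v_unit V (g l ⟨q, β, hβ⟩) p (Q l) (hcoef _ fun d hd => hsub ⟨q, β, hβ⟩ _
      (Finset.mem_union_left _ (Finset.mem_union_left _ (Finset.mem_image_of_mem _ hd)))) hQV hpQ
      (hg0 l _) (hsub _ _ (Finset.mem_union_right _ (Finset.mem_insert_self _ _)))).1
    have hH := (v_unit V (h l ⟨q, β, hβ⟩) p (Q l) (hcoef _ fun d hd => hsub ⟨q, β, hβ⟩ _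
      (Finset.mem_union_left _ (Finset.mem_union_right _ (Finset.mem_image_of_mem _ hd)))) hQV hpQ
      (hh0 l _) (hsub _ _ (Finset.mem_union_right _ (Finset.mem_insert_of_mem
        (Finset.mem_singleton_self _))))).1
    have h2 := congrArg V.valuation (hgh l ⟨q, β, hβ⟩ p hp)
    rw [map_mul, map_mul, map_pow, hG, hH, one_mul, mul_one] at h2
    exact h2

/-- The points of the curve at which a local parameter vanishes. -/
theorem finite_loc (a b : ℂ) (Q : Fin 2 → ℂ) : {p ∈ Curve a b | loc Q p = 0}.Finite := by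
  classical
  let S0 : Set ℂ := insert (Q 0) {x | x ^ 3 + a * x + b = 0}
  let S1 : Set ℂ := insert 0 {y | y ^ 2 = Q 0 ^ 3 + a * Q 0 + b}
  have hS0 : S0.Finite := by
    refine Set.Finite.insert _ ?_
    let f : Polynomial ℂ := Polynomial.X ^ 3 + Polynomial.C a * Polynomial.X + Polynomial.C b
    have hf : f ≠ 0 := by
      intro h0
      have h1 := congrArg (fun g : Polynomial ℂ => g.coeff 3) h0
      simp [f] at h1
    refine (f.roots.toFinset.finite_toSet).subset fun x hx => ?_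
    rw [Finset.mem_coe, Multiset.mem_toFinset, Polynomial.mem_roots hf, Polynomial.IsRoot]
    simp only [f, Polynomial.eval_add, Polynomial.eval_pow, Polynomial.eval_X,
      Polynomial.eval_mul, Polynomial.eval_C]
    exact hx
  have hS1 : S1.Finite := by
    refine Set.Finite.insert _ ?_
    let f : Polynomial ℂ := Polynomial.X ^ 2 - Polynomial.C (Q 0 ^ 3 + a * Q 0 + b)
    have hf : f ≠ 0 := Polynomial.X_pow_sub_C_ne_zero (by norm_num) _
    refine (f.roots.toFinset.finite_toSet).subset fun y hy => ?_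
    rw [Finset.mem_coe, Multiset.mem_toFinset, Polynomial.mem_roots hf, Polynomial.IsRoot]
    simp only [f, Polynomial.eval_sub, Polynomial.eval_pow, Polynomial.eval_X,
      Polynomial.eval_C]
    exact sub_eq_zero.2 hy
  refine (Set.Finite.pi' (ι := Fin 2) (t := ![S0, S1]) fun i => ?_).subset ?_
  · fin_cases i
    · exact hS0
    · exact hS1
  · rintro p ⟨hp, hl⟩ i
    have hp' : p 1 ^ 2 = p 0 ^ 3 + a * p 0 + b := hp
    by_cases h2 : Q 1 = 0
    · rw [loc, if_pos h2] at hl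
      fin_cases i
      · refine Or.inr ?_
        change p 0 ^ 3 + a * p 0 + b = 0
        rw [← hp', hl]
        norm_num
      · exact Or.inl hl
    · rw [loc, if_neg h2] at hl
      have h3 : p 0 = Q 0 := sub_eq_zero.1 hl
      fin_cases i
      · exact Or.inl h3
      · refine Or.inr ?_
        change p 1 ^ 2 = _
        rw [hp', h3]

/-- **The tropical criterion over an elliptic curve.** -/
theorem mainE (K : Subfield ℂ) [Countable K] (κ : Type) [Finite κ] (n k₀ N m M : ℕ) (a b : ℂ)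
    (ha : IsAlgebraic ℚ a) (hb : IsAlgebraic ℚ b) (hab : 4 * a ^ 3 + 27 * b ^ 2 ≠ 0)
    (P : κ → MvPolynomial ((Fin n ⊕ Fin k₀) ⊕ Fin N) (MvPolynomial (Fin 2) ℂ))
    (Q : Fin M → Fin 2 → ℂ) (hQ : ∀ l, Q l ∈ Curve a b) (hQa : ∀ l i, IsAlgebraic ℚ (Q l i))
    (e : Fin M → κ → (((Fin n ⊕ Fin k₀) ⊕ Fin N) →₀ ℕ) → ℕ)
    (he : ∀ l q, ∀ β ∈ (P q).support, HasOrder K a b (Q l) ((P q).coeff β) (e l q β))
    (hgen : ∀ (r : ℕ) (cls : Fin n → Option (Fin r)) (d : Fin n → ℕ)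
      (L : Submodule ℚ (Fin k₀ → ℚ)), (∀ i, 0 < d i) → r + Module.finrank ℚ L + m < n + k₀ →
      ∃ l, ∀ w, (∀ q, TropAt (P q).support (e l q) w) → ¬ Compatible cls d L w)
    (Γ : Finset ℂ) (hΓ : ∀ γ ∈ Γ, IsAlgebraic K γ) (E : IntermediateField ℚ ℂ)
    [FiniteDimensional ℚ E] :
    {p : Fin 2 → ℂ | p ∈ Curve a b ∧ (∀ i, p i ∈ E) ∧
      ¬ NoAtypical (algebraMap (Algebra.adjoin ℤ (Γ : Set ℂ)) ℂ) K m (memberE p P)}.Finite := by
  obtain ⟨W, hW⟩ := ellT K κ n k₀ N m M a b P Q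
    (fun l i => (hQa l i).isIntegral.tower_top.isAlgebraic) e he hgen Γ hΓ
  refine ((near_all a b ha hb hab Q hQ hQa W E).union
    (Set.finite_iUnion fun l => finite_loc a b (Q l))).subset ?_
  rintro p ⟨hp, hpE, hbad⟩
  by_contra hcon
  rw [Set.mem_union, not_or] at hcon
  refine hbad (hW p hp (fun i => alg_of_mem K E _ (hpE i)) (fun l h0 => hcon.2 ?_) ?_)
  · exact Set.mem_iUnion.2 ⟨l, hp, h0⟩
  · by_contra h
    exact hcon.1 ⟨hp, hpE, h⟩

end Pool.Agent.R424.TG
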