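import Pool.Agent.Y199.ZF.Rat
import Pool.Agent.R424.TG.Gauss
import Pool.Agent.R424.TG.Main

/-!
Arbitrary one-parameter families of subsets of `Y(1)^n × G_m^k` and rational parameters: the tropical
criterion with few exceptions (helper file).
-/

set_option autoImplicit false

namespace Pool.Agent.R424.TG

open MvPolynomial Pool.Agent.Y199.ZF
open Pool.Agent.Y152.RP.FamM (NoAtypical)

/-- **The tropical criterion** for all but few rational parameters. -/
theorem fewT (K : Subfield ℂ) [Countable K] (κ : Type) [Finite κ] (n k₀ N m : ℕ)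
    (P : κ → MvPolynomial ((Fin n ⊕ Fin k₀) ⊕ Fin N) (Polynomial K)) (D : Finset ℂ)
    (hD : ∀ α ∈ D, IsAlgebraic ℚ α) (Γ : Finset ℂ) (hΓ : ∀ γ ∈ Γ, IsAlgebraic K γ)
    (hgen : Generic m 1 P D) :
    Few fun t => ¬ NoAtypical (algebraMap (Algebra.adjoin ℤ (Γ : Set ℂ)) ℂ) K m
      (member ((t : ℚ) : ℂ) P) := by
  classical
  let k := algebraicClosure K ℂ
  have hcl : IsAlgClosure K k := inferInstance
  have hlift : ∀ S : Finset ℂ, (∀ z ∈ S, IsAlgebraic K z) → ∃ S' : Finset k,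
      (∀ z : k, z ∈ S' ↔ algebraMap k ℂ z ∈ S) ∧
      algebraMap k ℂ '' (S' : Set k) = (S : Set ℂ) := by
    intro S hS
    have hmem : ∀ z ∈ S, z ∈ algebraicClosure K ℂ := fun z hz =>
      mem_algebraicClosure_iff'.2 (hS z hz).isIntegral
    have h1 : ∀ z : k, z ∈ (S.attach.image fun z => (⟨z.1, hmem z.1 z.2⟩ : k)) ↔
        algebraMap k ℂ z ∈ S := by
      intro z
      constructor
      · intro hz
        obtain ⟨w, _, hw⟩ := Finset.mem_image.1 hz
        rw [← hw]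
        exact w.2
      · intro hz
        exact Finset.mem_image.2 ⟨⟨z.1, hz⟩, Finset.mem_attach _ _, rfl⟩
    refine ⟨S.attach.image fun z => ⟨z.1, hmem z.1 z.2⟩, h1, ?_⟩
    ext z
    constructor
    · rintro ⟨w, hw, rfl⟩
      exact (h1 w).1 hw
    · intro hz
      exact ⟨⟨z, hmem z hz⟩, (h1 _).2 hz, rfl⟩
  obtain ⟨Γf, -, hΓf⟩ := hlift Γ hΓ
  let Γ' : Set k := (Γf : Set k)
  have hΓ' : algebraMap k ℂ '' Γ' = (Γ : Set ℂ) := hΓf
  obtain ⟨D', hD', hD'im⟩ := hlift D fun α hα => (hD α hα).isIntegral.tower_top.isAlgebraic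
  obtain ⟨W₀, hW₀, hDW, hcore⟩ := core P m D' Γ' Γf.finite_toSet
  let s : Finset ℂ := hW₀.toFinset.image (algebraMap k ℂ)
  have hrange : {t : ℚ | ∃ α ∈ D, ((t : ℚ) : ℂ) = α}.Finite := by
    refine (D.finite_toSet.preimage (f := fun t : ℚ => (t : ℂ)) Rat.cast_injective.injOn).subset ?_
    rintro t ⟨α, hα, h⟩
    change ((t : ℚ) : ℂ) ∈ (D : Set ℂ)
    rw [h]
    exact hα
  have hfew : Few fun t => ∃ o : Option D, Option.elim o
      (t ∈ {t : ℚ | ∃ α ∈ D, ((t : ℚ) : ℂ) = α})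
      (fun α => ¬ ∃ (p : ℕ) (_ : Fact p.Prime) (τ : ℂ →+* PadicAlgCl p),
        (∀ x ∈ s, ‖τ x‖ ≤ 1) ∧ ‖τ ((t : ℚ) : ℂ)‖ ≤ 1 ∧
          ‖τ (α : ℂ) - τ ((t : ℚ) : ℂ)‖ < 1) := by
    refine Few.exists fun o => ?_
    rcases o with _ | α
    · exact few_finite hrange
    · exact few_far s α (hD α α.2)
  refine hfew.mono fun t ht => ?_
  by_contra hcon
  have hcon' := not_exists.1 hcon
  apply ht
  refine noAtypical_of_points K _ (fun x hx => hx.1) ?_
  have h1 := hcore ((t : ℚ) : ℂ) K le_rfl (fun α hα h => hcon' none ⟨_, (hD' α).1 hα, h⟩)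
    (fun r cls d L hd hr => by
      obtain ⟨I, hI, hIc, hno⟩ := hgen r cls d L hd hr
      obtain ⟨α, hα⟩ := Finset.card_pos.1 (show 0 < I.card by omega)
      obtain ⟨α', hα', hαα⟩ : ∃ α' ∈ D', algebraMap k ℂ α' = α := by
        have h2 : α ∈ algebraMap k ℂ '' (D' : Set k) := by
          rw [hD'im]
          exact hI hα
        obtain ⟨w, hw, rfl⟩ := h2
        exact ⟨w, hw, rfl⟩
      refine ⟨α', hα', fun ρ x hx => ?_, by rw [hαα]; exact hno α hα⟩
      obtain ⟨p, hp, τ, hτ, -, hτα⟩ := not_not.1 (hcon' (some ⟨α, hI hα⟩))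
      obtain ⟨V, hV1, hV2, hV3⟩ := gauss_ext (ringOf τ) x (hx.extendScalars k)
      refine ⟨V, ?_, fun z hz => hV1 z ((mem_ringOf τ).2 (hτ _
        (Finset.mem_image_of_mem _ ((Set.Finite.mem_toFinset hW₀).2 hz)))), hV3⟩
      have h3 := hV2 ((((t : ℚ) : k)) - α') (by
        rw [map_sub, map_ratCast, hαα]
        refine val_ringOf τ ?_
        rw [map_sub, norm_sub_rev]
        exact hτα)
      rw [map_sub, map_ratCast] at h3
      exact h3)
  rw [hΓ'] at h1
  exact h1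

end Pool.Agent.R424.TG
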