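import Pool.Agent.R424.TG.Main

/-!
Families of elliptic curves and of invertible functions over a base, the period map, and special
subvarieties (helper file).
-/

set_option autoImplicit false

namespace Pool.Agent.R424.TG

open MvPolynomial Pool.Agent.W282.ZP
open Pool.Agent.Y152.RP.FamM (NoAtypical SpecialVariety coset)

variable {R : Type} [CommRing R] {n k N : ℕ} {κ₀ : Type}

/-- `s` is a point of the base `S`: the polynomials `P q` vanish at `s`, and the discriminants
`4 A_i³ + 27 B_i²` and the functions `U_j` do not vanish. The coefficients are mapped to the complex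
numbers by `φ`. -/
def OnS (φ : R →+* ℂ) (P : κ₀ → MvPolynomial (Fin N) R) (A B : Fin n → MvPolynomial (Fin N) R)
    (U : Fin k → MvPolynomial (Fin N) R) (s : Fin N → ℂ) : Prop :=
  (∀ q, eval₂ φ s (P q) = 0) ∧
  (∀ i, 4 * eval₂ φ s (A i) ^ 3 + 27 * eval₂ φ s (B i) ^ 2 ≠ 0) ∧ ∀ j, eval₂ φ s (U j) ≠ 0

/-- The period map of the variation of mixed Hodge structure given by the elliptic curves
`E_i : y² = x³ + A_i x + B_i` and the extensions of `ℤ` by `ℤ(1)` with the classes `U_j`: the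
`j`-invariants `6912 A_i³ / (4 A_i³ + 27 B_i²)` and the numbers `U_j`. -/
noncomputable def period (φ : R →+* ℂ) (A B : Fin n → MvPolynomial (Fin N) R)
    (U : Fin k → MvPolynomial (Fin N) R) (s : Fin N → ℂ) : Fin n ⊕ Fin k → ℂ :=
  Sum.elim (fun i => 6912 * eval₂ φ s (A i) ^ 3 /
    (4 * eval₂ φ s (A i) ^ 3 + 27 * eval₂ φ s (B i) ^ 2)) fun j => eval₂ φ s (U j)

/-- The image `Φ(S)` of the period map. -/
def image (φ : R →+* ℂ) (P : κ₀ → MvPolynomial (Fin N) R) (A B : Fin n → MvPolynomial (Fin N) R)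
    (U : Fin k → MvPolynomial (Fin N) R) : Set (Fin n ⊕ Fin k → ℂ) :=
  {x | ∃ s, OnS φ P A B U s ∧ x = period φ A B U s}

/-- There are no intersections of `Φ(S) = X` of too large dimension with the products `Z × C` of
special subvarieties `Z` of `Y(1)^n`, `dim Z = r`, and cosets `C` of algebraic subgroups of `G_m^k` by
points whose coordinates are units over `Λ`, `dim C = k - rank M`, if `X` is regarded as a set of
dimension `m`: every point of `X ∩ (Z × C)` has transcendence degree at most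
`dim (Z × C) + m - (n + k)` over `K`, and every irreducible closed set `W`, such that its points
outside of some hypersurface `g = 0`, which does not contain `W`, are in `X ∩ (Z × C)`, has dimension
at most `dim (Z × C) + m - (n + k)`. -/
def NoAtypicalHodge {Λ : Type} [CommRing Λ] (f : Λ →+* ℂ) (K : Subfield ℂ) (m : ℕ)
    (X : Set (Fin n ⊕ Fin k → ℂ)) : Prop :=
  ∀ (r : ℕ) (Z : SpecialVariety f n r) (M : Submodule ℤ (Fin k → ℤ)) (η : Fin k → ℂ),
    (∀ j, η j ≠ 0 ∧ f.IsIntegralElem (η j) ∧ f.IsIntegralElem (η j)⁻¹) →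
    (∀ x ∈ X, (fun i => x (Sum.inl i)) ∈ Z.locus → (fun j => x (Sum.inr j)) ∈ coset M η →
      ∀ S : Finset (Fin n ⊕ Fin k), AlgebraicIndependent K (fun i : S => x i) →
        S.card + n + Module.finrank ℤ M ≤ r + m) ∧
    ∀ (W : Set (Fin n ⊕ Fin k → ℂ)) (g : MvPolynomial (Fin n ⊕ Fin k) ℂ),
      (∀ w ∈ W, eval w g ≠ 0 → w ∈ X ∧ (fun i => w (Sum.inl i)) ∈ Z.locus ∧
        (fun j => w (Sum.inr j)) ∈ coset M η) →
      zcl W ⊆ W → (idealOf W).IsPrime → g ∉ idealOf W →
      zdim W + (n : Cardinal) + (Module.finrank ℤ M : Cardinal) ≤ (r : Cardinal) + (m : Cardinal)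

theorem noAtypicalHodge_of {Λ : Type} [CommRing Λ] {f : Λ →+* ℂ} {K : Subfield ℂ} [Countable K]
    {m : ℕ} {X X' : Set (Fin n ⊕ Fin k → ℂ)} (h : NoAtypical f K m X') (hX : X ⊆ X') :
    NoAtypicalHodge f K m X := by
  intro r Z M η hη
  have hpt : ∀ x ∈ X, (fun i => x (Sum.inl i)) ∈ Z.locus →
      (fun j => x (Sum.inr j)) ∈ coset M η →
      ∀ S : Finset (Fin n ⊕ Fin k), AlgebraicIndependent K (fun i : S => x i) →
        S.card + n + Module.finrank ℤ M ≤ r + m := fun x hx hxZ hxC S hS =>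
    (h r Z M η hη).2 x (hX hx) hxZ hxC S hS
  refine ⟨hpt, fun W g hW hcl hprime hg => ?_⟩
  obtain ⟨w, hwW, hw0, T, hT, hdim⟩ := Pool.Agent.W282.SI.generic_dim' K W hprime
    (β := Unit) (fun _ => g) fun _ => hg
  have hwW' : w ∈ W := hcl hwW
  obtain ⟨h1, h2, h3⟩ := hW w hwW' (hw0 ())
  have h4 := hpt w h1 h2 h3 T hT
  calc zdim W + (n : Cardinal) + (Module.finrank ℤ M : Cardinal) ≤
        (T.card : Cardinal) + (n : Cardinal) + (Module.finrank ℤ M : Cardinal) := by gcongr
    _ = ((T.card + n + Module.finrank ℤ M : ℕ) : Cardinal) := by push_cast; rfl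
    _ ≤ ((r + m : ℕ) : Cardinal) := by exact_mod_cast h4
    _ = (r : Cardinal) + (m : Cardinal) := by push_cast; rfl

theorem image_subset {K : Subfield ℂ} {κ : Type} (t : ℂ)
    (P : κ₀ → MvPolynomial (Fin N) (Polynomial K))
    (A B : Fin n → MvPolynomial (Fin N) (Polynomial K))
    (U : Fin k → MvPolynomial (Fin N) (Polynomial K))
    (E : κ → MvPolynomial ((Fin n ⊕ Fin k) ⊕ Fin N) (Polynomial K))
    (hE : ∀ s, OnS (Pool.Agent.Y152.RP.FamM.evalAt K t) P A B U s → ∀ q,
      eval₂ (Pool.Agent.Y152.RP.FamM.evalAt K t)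
        (Sum.elim (period (Pool.Agent.Y152.RP.FamM.evalAt K t) A B U s) s) (E q) = 0) :
    image (Pool.Agent.Y152.RP.FamM.evalAt K t) P A B U ⊆ member t E := by
  rintro x ⟨s, hs, rfl⟩
  exact ⟨fun j => hs.2.2 j, s, hE s hs⟩

end Pool.Agent.R424.TG
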