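import Pool.Agent.R424.TG.Gauss
import Pool.Agent.R424.TG.Abs

/-!
The tropical criterion for a single system over a ring with prime ideals (helper file).
-/

set_option autoImplicit false

namespace Pool.Agent.R424.TG

open H294ZP UpperHalfPlane MvPolynomial Pool.Agent.W282.ZP Pool.Agent.Y152.RP
open Pool.Agent.Y152.RP.FamM (NoAtypical SpecialVariety coset rel_of_locus)
open Pool.Agent.R424.FD (toNat_mul')

/-- **The tropical criterion**, abstract form with constants integral over a ring. -/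
theorem coreB {Λ : Type} [CommRing Λ] (f : Λ →+* ℂ) (K : Subfield ℂ) [Countable K]
    (hK : ∀ a, f a ∈ K) {κ : Type} [Finite κ] {n k₀ N m : ℕ}
    (supp : κ → Finset (((Fin n ⊕ Fin k₀) ⊕ Fin N) →₀ ℕ))
    (b : κ → (((Fin n ⊕ Fin k₀) ⊕ Fin N) →₀ ℕ) → ℂ)
    (hgood : ∀ (r : ℕ) (cls : Fin n → Option (Fin r)) (d : Fin n → ℕ)
      (L : Submodule ℚ (Fin k₀ → ℚ)), (∀ i, 0 < d i) → r + Module.finrank ℚ L + m < n + k₀ →
      ∃ e : κ → (((Fin n ⊕ Fin k₀) ⊕ Fin N) →₀ ℕ) → ℕ,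
        (∀ w, (∀ q, TropAt (supp q) (e q) w) → ¬ Compatible cls d L w) ∧
        ∀ (ρ : Type) (x : ρ → ℂ), AlgebraicIndependent K x →
          ∃ (V : ValuationSubring ℂ) (π : V.ValueGroup), π ≠ 0 ∧ π < 1 ∧
            (∀ q, ∀ β ∈ supp q, V.valuation (b q β) = π ^ e q β) ∧
            (∀ a, V.valuation (f a) ≤ 1) ∧ ∀ j, V.valuation (x j) = 1) :
    NoAtypical f K m (solutions supp b : Set (Fin n ⊕ Fin k₀ → ℂ)) := by
  classical
  let _ : Algebra Λ ℂ := f.toAlgebra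
  let fK : Λ →+* K := f.codRestrict K hK
  let _ : Algebra Λ K := fK.toAlgebra
  have hst : IsScalarTower Λ K ℂ := IsScalarTower.of_algebraMap_eq fun _ => rfl
  let 𝕜 := algebraicClosure K ℂ
  have hcl : IsAlgClosure K 𝕜 := inferInstance
  have hintalg : ∀ z : ℂ, IsIntegral Λ z → IsAlgebraic K z := fun z hz =>
    (hz.tower_top (A := K)).isAlgebraic
  refine noAtypical_of_points K _ (fun x hx => hx.1) ?_
  intro x hx r Z M η hη hxZ hxC S hS
  obtain ⟨hx0, y, hy⟩ := hx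
  have hSk : AlgebraicIndependent 𝕜 (fun i : S => x i) := algInd_closure le_rfl hS
  have hd : ∀ i, 0 < (Z.mat i).det.toNat := fun i => by
    have := Z.det_pos i
    omega
  have hrel : ∀ i j l, Z.cls i = some l → Z.cls j = some l →
      IsIntegral (Algebra.adjoin ℤ {x (Sum.inl i)}) (x (Sum.inl j)) ∧
      Polynomial.eval₂ (Polynomial.aeval (x (Sum.inl i)) : Polynomial ℂ →ₐ[ℂ] ℂ).toRingHom
        (x (Sum.inl j)) (W282.ZP.Psi ((Z.mat i).det.toNat * (Z.mat j).det.toNat)) = 0 := by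
    intro i j l hi hj
    have h5 := rel_of_locus Z hxZ i j l hi hj
    rw [toNat_mul' (Z.det_pos i) (Z.det_pos j)] at h5
    exact h5
  have h1 : ∀ i, Z.cls i = none → IsIntegral Λ (x (Sum.inl i)) := by
    intro i hi
    obtain ⟨z, hz⟩ := hxZ
    have h2 : x (Sum.inl i) = Z.const i := (hz i).1 hi
    rw [h2]
    rcases Z.allowed i with ⟨τ, hτ, hc⟩ | h
    · rw [hc]
      exact (singular_modulus_integral τ hτ).tower_top
    · exact h
  have hηint : ∀ j, IsIntegral Λ (η j) ∧ IsIntegral Λ (η j)⁻¹ := fun j =>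
    ⟨(hη j).2.1, (hη j).2.2⟩
  have hk : ∀ z : ℂ, IsAlgebraic K z → ∃ u : 𝕜, z = algebraMap 𝕜 ℂ u := fun z hz =>
    ⟨⟨z, mem_algebraicClosure_iff.2 hz⟩, rfl⟩
  obtain ⟨r', cls', M', hr', hcls', hV'⟩ := reduce (Λ := 𝕜) (F := 𝕜) Z.cls
    (fun i => (Z.mat i).det.toNat) x M η hd (fun i hi => by
      obtain ⟨u, hu⟩ := hk _ (hintalg _ (h1 i hi))
      rw [hu]
      exact isAlgebraic_algebraMap u) hrel hx0
    (fun j => hk _ (hintalg _ (hηint j).1))
    hxC.2 S hSk hSk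
  by_contra hcon
  push Not at hcon
  have hrank := Pool.Agent.Y199.ZF.finrank_perp M'
  obtain ⟨e, hno, hV⟩ := hgood r' cls' (fun i => (Z.mat i).det.toNat)
    (Pool.Agent.Y199.ZF.perp M') hd (by omega)
  obtain ⟨V, π, hπ0, hπ1, hVb, hVΛ, hVx⟩ := hV S (fun i : S => x i) hS
  obtain ⟨hc1, hc2⟩ := hV' V (fun i hi => TH526.ZL.mem_of_int V hVΛ (h1 i hi)) hVx (fun j => by
    refine le_antisymm (TH526.ZL.mem_of_int V hVΛ (hηint j).1) ?_
    have h5 := TH526.ZL.mem_of_int V hVΛ (hηint j).2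
    rw [map_inv₀] at h5
    have h6 : V.valuation (η j) ≠ 0 := (Valuation.ne_zero_iff _).2 (hη j).1
    exact (inv_le_one₀ (zero_lt_iff.2 h6)).1 h5)
  obtain ⟨w, hw1, hw2⟩ := compat_point V π hπ0 hπ1 supp b e hVb (Sum.elim x y) hy cls'
    (fun i => (Z.mat i).det.toNat) hd hc1
    (fun i j c hi hj => by
      obtain ⟨c', hi', hj'⟩ := hcls' i j c hi hj
      exact (hrel i j c' hi' hj').2) hx0 M' hc2
  exact hno w hw1 hw2

/-- The orders `e l q β` of the coefficients at `M` places exclude all types of special subvarieties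
of dimension less than `n + k - m`: for every type there is a place `l` such that the
tropicalization has no compatible point. -/
def GenericOrders {n k N M : ℕ} {κ : Type} (m : ℕ)
    (supp : κ → Finset (((Fin n ⊕ Fin k) ⊕ Fin N) →₀ ℕ))
    (e : Fin M → κ → (((Fin n ⊕ Fin k) ⊕ Fin N) →₀ ℕ) → ℕ) : Prop :=
  ∀ (r : ℕ) (cls : Fin n → Option (Fin r)) (d : Fin n → ℕ) (L : Submodule ℚ (Fin k → ℚ)),
    (∀ i, 0 < d i) → r + Module.finrank ℚ L + m < n + k →
      ∃ l, ∀ w, (∀ q, TropAt (supp q) (e l q) w) → ¬ Compatible cls d L w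

/-- **The tropical local criterion.** -/
theorem localT {Λ : Type} [CommRing Λ] (f : Λ →+* ℂ) (hf : Function.Injective f)
    (K : Subfield ℂ) [Countable K] (hK : ∀ a, f a ∈ K) {κ : Type} [Finite κ] {n k N m M : ℕ}
    (supp : κ → Finset (((Fin n ⊕ Fin k) ⊕ Fin N) →₀ ℕ))
    (c : κ → (((Fin n ⊕ Fin k) ⊕ Fin N) →₀ ℕ) → Λ)
    (e : Fin M → κ → (((Fin n ⊕ Fin k) ⊕ Fin N) →₀ ℕ) → ℕ) (hgen : GenericOrders m supp e)
    (𝔭 : Fin M → Ideal Λ) (h𝔭 : ∀ l, (𝔭 l).IsPrime)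
    (ϖ : Fin M → Λ) (hϖ : ∀ l, ϖ l ∈ 𝔭 l) (hϖ0 : ∀ l, ϖ l ≠ 0)
    (he : ∀ l q, ∀ β ∈ supp q, ∃ a b : Λ, a ∉ 𝔭 l ∧ b ∉ 𝔭 l ∧
      a * c q β = b * ϖ l ^ e l q β) :
    NoAtypical f K m (solutions supp fun q β => f (c q β) : Set (Fin n ⊕ Fin k → ℂ)) := by
  classical
  let _ : Algebra Λ ℂ := f.toAlgebra
  let fK : Λ →+* K := f.codRestrict K hK
  let _ : Algebra Λ K := fK.toAlgebra
  have hst : IsScalarTower Λ K ℂ := IsScalarTower.of_algebraMap_eq fun _ => rfl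
  have hfK : Function.Injective (algebraMap Λ K) := fun a b h => hf (congrArg Subtype.val h)
  have hdom : IsDomain Λ := hf.isDomain f
  refine coreB f K hK _ _ fun r cls d L hd hr => ?_
  obtain ⟨l, hl⟩ := hgen r cls d L hd hr
  refine ⟨e l, hl, fun ρ x hx => ?_⟩
  have hxΛ : AlgebraicIndependent Λ x := hx.restrictScalars hfK
  have := h𝔭 l
  obtain ⟨V, hV1, hV2⟩ := Pool.Agent.Y152.BD.exists_place_gauss (𝔭 l) x hxΛ
  have hle : ∀ a : Λ, V.valuation (f a) ≤ 1 := by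
    intro a
    have h1 := hV1 (C a)
    rw [aeval_C] at h1
    exact h1
  have hlt : ∀ a : Λ, V.valuation (f a) < 1 ↔ a ∈ 𝔭 l := by
    intro a
    have h1 := hV2 (C a)
    rw [aeval_C, MvPolynomial.map_C, map_eq_zero_iff C (C_injective _ _),
      Ideal.Quotient.eq_zero_iff_mem] at h1
    exact h1
  have hunit : ∀ a : Λ, a ∉ 𝔭 l → V.valuation (f a) = 1 := by
    intro a ha
    refine le_antisymm (hle a) ?_
    by_contra h
    push Not at h
    exact ha ((hlt a).1 h)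
  refine ⟨V, V.valuation (f (ϖ l)), ?_, (hlt _).2 (hϖ l), fun q β hβ => ?_, hle, fun j => ?_⟩
  · rw [Valuation.ne_zero_iff]
    intro h0
    exact hϖ0 l (hf (h0.trans (map_zero f).symm))
  · obtain ⟨a, b, ha, hb, hab⟩ := he l q β hβ
    have h5 := congrArg (fun z => V.valuation (f z)) hab
    simp only [map_mul, map_pow, hunit a ha, hunit b hb, one_mul] at h5
    exact h5
  · have h1 := hV1 (X j)
    rw [aeval_X] at h1
    refine le_antisymm h1 (not_lt.1 fun h2 => ?_)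
    have h3 := (hV2 (X j)).1 (by rw [aeval_X]; exact h2)
    rw [MvPolynomial.map_X] at h3
    have : Nontrivial (Λ ⧸ 𝔭 l) := Ideal.Quotient.nontrivial_iff.2 (h𝔭 l).ne_top
    exact MvPolynomial.X_ne_zero j h3

/-- Integral systems in a residue class. -/
theorem residueT (K : Subfield ℂ) [Countable K] {κ : Type} [Finite κ] {n k N m M : ℕ}
    (supp : κ → Finset (((Fin n ⊕ Fin k) ⊕ Fin N) →₀ ℕ))
    (e : Fin M → κ → (((Fin n ⊕ Fin k) ⊕ Fin N) →₀ ℕ) → ℕ) (hgen : GenericOrders m supp e) :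
    ∃ Q : ℕ, 0 < Q ∧ ∃ c₀ : κ → (((Fin n ⊕ Fin k) ⊕ Fin N) →₀ ℕ) → ℤ,
      ∀ c : κ → (((Fin n ⊕ Fin k) ⊕ Fin N) →₀ ℕ) → ℤ,
        (∀ q, ∀ β ∈ supp q, (Q : ℤ) ∣ c q β - c₀ q β) →
        NoAtypical (Int.castRingHom ℂ) K m
          (solutions supp fun q β => ((c q β : ℤ) : ℂ) : Set (Fin n ⊕ Fin k → ℂ)) := by
  classical
  have := Fintype.ofFinite κ
  let p : Fin M → ℕ := fun l => Nat.nth Nat.Prime l
  have hp : ∀ l, (p l).Prime := fun l => Nat.prime_nth_prime l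
  have hpinj : Function.Injective p := fun l l' h =>
    Fin.ext (Nat.nth_injective Nat.infinite_setOfPred_prime h)
  let E : ℕ := ∑ l, ∑ q, ∑ β ∈ supp q, e l q β
  have hE : ∀ l q, ∀ β ∈ supp q, e l q β ≤ E := by
    intro l q β hβ
    calc e l q β ≤ ∑ β ∈ supp q, e l q β :=
          Finset.single_le_sum (f := fun β => e l q β) (fun _ _ => Nat.zero_le _) hβ
      _ ≤ ∑ q, ∑ β ∈ supp q, e l q β :=
          Finset.single_le_sum (f := fun q => ∑ β ∈ supp q, e l q β)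
            (fun _ _ => Nat.zero_le _) (Finset.mem_univ q)
      _ ≤ E := Finset.single_le_sum (f := fun l => ∑ q, ∑ β ∈ supp q, e l q β)
            (fun _ _ => Nat.zero_le _) (Finset.mem_univ l)
  refine ⟨∏ l, p l ^ (E + 1), Finset.prod_pos fun l _ => pow_pos (hp l).pos _,
    fun q β => ∏ l, (p l : ℤ) ^ e l q β, fun c hc => ?_⟩
  have key : ∀ l q, ∀ β ∈ supp q, ∃ b : ℤ, ¬ (p l : ℤ) ∣ b ∧ c q β = b * (p l : ℤ) ^ e l q β := by
    intro l q β hβ
    obtain ⟨u, hu⟩ := hc q β hβ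
    have h1 : ((∏ l, p l ^ (E + 1) : ℕ) : ℤ) =
        (p l : ℤ) ^ (E + 1) * ∏ l' ∈ Finset.univ.erase l, (p l' : ℤ) ^ (E + 1) := by
      push_cast
      exact (Finset.mul_prod_erase _ (fun l => (p l : ℤ) ^ (E + 1)) (Finset.mem_univ l)).symm
    have h2 : ∏ l, (p l : ℤ) ^ e l q β =
        (p l : ℤ) ^ e l q β * ∏ l' ∈ Finset.univ.erase l, (p l' : ℤ) ^ e l' q β :=
      (Finset.mul_prod_erase _ (fun l => (p l : ℤ) ^ e l q β) (Finset.mem_univ l)).symm
    have h3 : (p l : ℤ) ^ (E + 1) = (p l : ℤ) ^ e l q β * (p l * (p l : ℤ) ^ (E - e l q β)) := by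
      rw [← pow_succ', ← pow_add]
      congr 1
      have := hE l q β hβ
      omega
    refine ⟨∏ l' ∈ Finset.univ.erase l, (p l' : ℤ) ^ e l' q β + p l * ((p l : ℤ) ^ (E - e l q β) *
      ((∏ l' ∈ Finset.univ.erase l, (p l' : ℤ) ^ (E + 1)) * u)), ?_, ?_⟩
    · intro hdvd
      have h4 : (p l : ℤ) ∣ ∏ l' ∈ Finset.univ.erase l, (p l' : ℤ) ^ e l' q β :=
        (dvd_add_left (Dvd.intro _ rfl)).1 hdvd
      have hpp : Prime (p l : ℤ) := Nat.prime_iff_prime_int.1 (hp l)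
      obtain ⟨l', hl', h5⟩ := (hpp.dvd_finsetProd_iff _).1 h4
      have h6 := hpp.dvd_of_dvd_pow h5
      have h7 : p l ∣ p l' := by exact_mod_cast h6
      have h8 := (Nat.prime_dvd_prime_iff_eq (hp l) (hp l')).1 h7
      exact (Finset.ne_of_mem_erase hl') (hpinj h8).symm
    · have h4 : c q β = ∏ l, (p l : ℤ) ^ e l q β + ((∏ l, p l ^ (E + 1) : ℕ) : ℤ) * u := by
        rw [← hu]
        ring
      rw [h4, h1, h2, h3]
      ring
  refine localT (Int.castRingHom ℂ) Int.cast_injective K (fun a => intCast_mem K a) supp c e hgen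
    (fun l => Ideal.span {(p l : ℤ)}) (fun l => ?_) (fun l => (p l : ℤ))
    (fun l => Ideal.mem_span_singleton_self _) (fun l => ?_) fun l q β hβ => ?_
  · rw [Ideal.span_singleton_prime (by exact_mod_cast (hp l).ne_zero)]
    exact Nat.prime_iff_prime_int.1 (hp l)
  · exact_mod_cast (hp l).ne_zero
  · obtain ⟨b, hb, hcb⟩ := key l q β hβ
    refine ⟨1, b, ?_, ?_, ?_⟩
    · rw [Ideal.mem_span_singleton]
      intro h
      have h1 : p l ∣ 1 := by exact_mod_cast h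
      exact (hp l).one_lt.ne' (Nat.dvd_one.1 h1)
    · rw [Ideal.mem_span_singleton]
      exact hb
    · rw [one_mul]
      exact hcb

end Pool.Agent.R424.TG
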