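import Pool.Agent.R424.TG.Typ

/-!
The reduction of the dimension of a special subvariety by algebraically independent coordinates
(helper file).
-/

set_option autoImplicit false

namespace Pool.Agent.R424.TG

open MvPolynomial Pool.Agent.W282.ZP Pool.Agent.TH526.ZL Pool.Agent.R424.FD Pool.Agent.W466.ZC

/-- Algebraically independent coordinates, which are units at the places, reduce the dimension of the
type of a special subvariety. -/
theorem reduce {Λ : Type} [CommRing Λ] [IsDomain Λ] [Algebra Λ ℂ] {F : Type} [Field F]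
    [Algebra F ℂ] {n k r : ℕ} (cls : Fin n → Option (Fin r)) (d : Fin n → ℕ)
    (x : Fin n ⊕ Fin k → ℂ) (M : Submodule ℤ (Fin k → ℤ)) (η : Fin k → ℂ)
    (hd : ∀ i, 0 < d i)
    (hconst : ∀ i, cls i = none → IsAlgebraic Λ (x (Sum.inl i)))
    (hrel : ∀ i j l, cls i = some l → cls j = some l →
        IsIntegral (Algebra.adjoin ℤ {x (Sum.inl i)}) (x (Sum.inl j)) ∧
        Polynomial.eval₂ (Polynomial.aeval (x (Sum.inl i)) : Polynomial ℂ →ₐ[ℂ] ℂ).toRingHom
          (x (Sum.inl j)) (W282.ZP.Psi (d i * d j)) = 0)
    (hx0 : ∀ j, x (Sum.inr j) ≠ 0) (hηF : ∀ j, ∃ u : F, η j = algebraMap F ℂ u)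
    (hM : ∀ a ∈ M, W282.ZP.chi (fun j => x (Sum.inr j)) a = W282.ZP.chi η a)
    (S : Finset (Fin n ⊕ Fin k)) (hS : AlgebraicIndependent Λ (fun i : S => x i))
    (hSF : AlgebraicIndependent F (fun i : S => x i)) :
    ∃ (r' : ℕ) (cls' : Fin n → Option (Fin r')) (M' : Submodule ℤ (Fin k → ℤ)),
      r' + S.card + Module.finrank ℤ M ≤ r + Module.finrank ℤ M' ∧
      (∀ i j c, cls' i = some c → cls' j = some c → ∃ c', cls i = some c' ∧ cls j = some c') ∧
      ∀ V : ValuationSubring ℂ, (∀ i, cls i = none → V.valuation (x (Sum.inl i)) ≤ 1) →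
        (∀ i : S, V.valuation (x i) = 1) → (∀ j, V.valuation (η j) = 1) →
        (∀ i, cls' i = none → V.valuation (x (Sum.inl i)) ≤ 1) ∧
        ∀ c ∈ M', ∏ j, V.valuation (x (Sum.inr j)) ^ c j = 1 := by
  classical
  have hQ : ∀ i j, 0 < d i * d j := fun i j => Nat.mul_pos (hd i) (hd j)
  -- the two parts of `S`
  let U : Finset (Fin n) := S.toLeft
  let T' : Finset (Fin k) := S.toRight
  have hScard : U.card + T'.card = S.card := S.card_toLeft_add_card_toRight
  have hSsome : ∀ t : U, ∃ k, cls t = some k := by
    intro t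
    have ht : Sum.inl (t : Fin n) ∈ S := Finset.mem_toLeft.1 t.2
    cases hc : cls t with
    | none => exact ((hS.transcendental ⟨Sum.inl t, ht⟩) (hconst t hc)).elim
    | some k => exact ⟨k, rfl⟩
  choose cl hcl using hSsome
  have hclinj : Function.Injective cl := by
    intro t t' htt
    by_contra hne
    refine not_algInd'' hS (i := ⟨Sum.inl (t : Fin n), Finset.mem_toLeft.1 t.2⟩)
      (j := ⟨Sum.inl (t' : Fin n), Finset.mem_toLeft.1 t'.2⟩) ?_
      (hrel t t' (cl t) (hcl t) (by rw [htt]; exact hcl t')).1
    intro h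
    apply hne
    have h1 := Sum.inl_injective (congrArg Subtype.val h)
    exact Subtype.ext h1
  -- the lattice of relations, enlarged by the independent torus coordinates
  set xt : Fin k → ℂ := fun j => x (Sum.inr j) with hxt
  have hT' : AlgebraicIndependent F (fun j : T' => xt j) := by
    have h1 := hSF.comp (fun j : T' => (⟨Sum.inr (j : Fin k), Finset.mem_toRight.1 j.2⟩ : S))
      (by
        intro j j' h
        have h1 := Sum.inr_injective (congrArg Subtype.val h)
        exact Subtype.ext h1)
    exact h1
  let M' : Submodule ℤ (Fin k → ℤ) :=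
    M ⊔ Submodule.span ℤ ((fun j => Pi.single j (1 : ℤ)) '' (T' : Set (Fin k)))
  have hfin : Module.finrank ℤ M + T'.card ≤ Module.finrank ℤ M' := by
    refine W282.ZP.finrank_add_card' xt hx0 T' hT' M ?_ M' le_sup_left ?_
    · intro a ha
      choose u hu using hηF
      refine ⟨∏ j, u j ^ a j, ?_⟩
      rw [hM a ha, W282.ZP.chi, map_prod]
      refine Finset.prod_congr rfl fun j _ => ?_
      rw [map_zpow₀, hu]
    · intro j hj
      exact Submodule.mem_sup_right (Submodule.subset_span ⟨j, hj, rfl⟩)
  let Fr : Finset (Fin r) := Finset.univ.filter fun k : Fin r => k ∉ Finset.univ.image cl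
  have hFr : Fr.card + U.card = r := by
    have h2 : (Finset.univ.filter fun k : Fin r => k ∈ Finset.univ.image cl).card = U.card := by
      have h3 : (Finset.univ.filter fun k : Fin r => k ∈ Finset.univ.image cl) =
          Finset.univ.image cl := by
        ext k; simp
      rw [h3, Finset.card_image_of_injective _ hclinj, Finset.card_univ, Fintype.card_coe]
    have := Finset.card_filter_add_card_filter_not (s := (Finset.univ : Finset (Fin r)))
      (fun k => k ∈ Finset.univ.image cl)
    rw [Finset.card_univ, Fintype.card_fin] at this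
    change _ + Fr.card = r at this
    omega
  let eF : Fr ≃ Fin Fr.card := Fr.equivFin
  let cls' : Fin n → Option (Fin Fr.card) := fun i =>
    match cls i with
    | none => none
    | some c => if h : c ∈ Fr then some (eF ⟨c, h⟩) else none
  have hcls' : ∀ i c, cls' i = some c → cls i = some (eF.symm c : Fin r) := by
    intro i c hi
    simp only [cls'] at hi
    cases hc : cls i with
    | none =>
      rw [hc] at hi
      exact absurd hi (by simp)
    | some c' =>
      rw [hc] at hi
      by_cases h : c' ∈ Fr
      · simp only [h, dif_pos] at hi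
        have h1 := Option.some_injective _ hi
        rw [← h1, Equiv.symm_apply_apply]
      · simp only [h] at hi
        exact absurd hi (by simp)
  refine ⟨Fr.card, cls', M', by omega, fun i j c hi hj => ⟨_, hcls' i c hi, hcls' j c hj⟩,
    fun V hV1 hV2 hV3 => ⟨fun i hi => ?_, ?_⟩⟩
  · simp only [cls'] at hi
    cases hc : cls i with
    | none => exact hV1 i hc
    | some c =>
      rw [hc] at hi
      by_cases h : c ∈ Fr
      · simp only [h, dif_pos] at hi
        exact absurd hi (by simp)
      · have h1 : c ∈ Finset.univ.image cl := by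
          by_contra h2
          exact h (Finset.mem_filter.2 ⟨Finset.mem_univ _, h2⟩)
        obtain ⟨t, -, ht⟩ := Finset.mem_image.1 h1
        have h3 := (hrel t i c (ht ▸ hcl t) hc).2
        exact ((W282.ZP.Psi_spec (hQ t i)).2.2 ℂ V _ _ h3).1
          (hV2 ⟨Sum.inl (t : Fin n), Finset.mem_toLeft.1 t.2⟩).le
  · have hv0 : ∀ i, V.valuation (xt i) ≠ 0 := fun i => (Valuation.ne_zero_iff _).2 (hx0 i)
    have hle : M' ≤ W282.ZP.oneLat (fun i => V.valuation (xt i)) hv0 := by
      refine sup_le ?_ (Submodule.span_le.2 ?_)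
      · intro b hb
        change W282.ZP.chi (fun i => V.valuation (xt i)) b = 1
        have h1 : W282.ZP.chi (fun i => V.valuation (xt i)) b =
            V.valuation (W282.ZP.chi xt b) := by
          simp [W282.ZP.chi]
        rw [h1, hM b hb]
        simp only [W282.ZP.chi, map_prod, map_zpow₀, hV3, one_zpow, Finset.prod_const_one]
      · rintro _ ⟨j, hj, rfl⟩
        change W282.ZP.chi (fun i => V.valuation (xt i)) (Pi.single j (1 : ℤ)) = 1
        rw [W282.ZP.chi_single]
        exact hV2 ⟨Sum.inr j, Finset.mem_toRight.1 hj⟩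
    intro c hc
    exact hle hc

end Pool.Agent.R424.TG
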