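import Pool.Agent.R424.TG.Loc
import Pool.Agent.R424.FD.FamM

/-!
Combinatorial types of special subvarieties of `Y(1)^n × G_m^k` and the tropicalization (helper file).
-/

set_option autoImplicit false

namespace Pool.Agent.R424.TG

open MvPolynomial Pool.Agent.W282.ZP Pool.Agent.TH526.ZL Pool.Agent.R424.FD

/-- A point `w` with rational or infinite coordinates is compatible with the special subvarieties of
`Y(1)^n × G_m^k` of the type `(cls, d, L)`: the constant coordinates are not negative, the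
coordinates in one class are both not negative or both negative with the ratio `d i * d j` up to a
square, and the torus coordinates are in the linear space `L`. -/
def Compatible {n k N r : ℕ} (cls : Fin n → Option (Fin r)) (d : Fin n → ℕ)
    (L : Submodule ℚ (Fin k → ℚ)) (w : (Fin n ⊕ Fin k) ⊕ Fin N → WithTop ℚ) : Prop :=
  (∀ i, cls i = none → 0 ≤ w (Sum.inl (Sum.inl i))) ∧
  (∀ i j c, cls i = some c → cls j = some c →
    (0 ≤ w (Sum.inl (Sum.inl i)) ∧ 0 ≤ w (Sum.inl (Sum.inl j))) ∨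
    ∃ u v : ℚ, w (Sum.inl (Sum.inl i)) = (u : WithTop ℚ) ∧ w (Sum.inl (Sum.inl j)) = (v : WithTop ℚ) ∧
      u < 0 ∧ v < 0 ∧ IsSquare ((d i : ℚ) * d j * (u * v))) ∧
  ∃ u ∈ L, ∀ j, w (Sum.inl (Sum.inr j)) = ((u j : ℚ) : WithTop ℚ)

theorem prod_single {σ : Type} [Fintype σ] [DecidableEq σ] {Γ₀ : Type*} [CommGroupWithZero Γ₀]
    (y : σ → Γ₀) (i : σ) (m : ℤ) : ∏ l, y l ^ ((Pi.single i m : σ → ℤ) l) = y i ^ m := by
  rw [Finset.prod_eq_single i]
  · rw [Pi.single_eq_same]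
  · intro l _ hl
    rw [Pi.single_eq_of_ne hl, zpow_zero]
  · intro h
    exact absurd (Finset.mem_univ i) h

theorem prod_single_sub {σ : Type} [Fintype σ] [DecidableEq σ] {Γ₀ : Type*} [CommGroupWithZero Γ₀]
    (y : σ → Γ₀) (hy : ∀ l, y l ≠ 0) (i j : σ) (m m' : ℤ) :
    ∏ l, y l ^ ((Pi.single i m - Pi.single j m' : σ → ℤ) l) = y i ^ m / y j ^ m' := by
  rw [← prod_single y i m, ← prod_single y j m', ← Finset.prod_div_distrib]
  refine Finset.prod_congr rfl fun l _ => ?_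
  rw [Pi.sub_apply, zpow_sub₀ (hy l)]

theorem sum_single {σ : Type} [Fintype σ] [DecidableEq σ] (u : σ → ℚ) (i : σ) (m : ℤ) :
    ∑ l, (((Pi.single i m : σ → ℤ) l : ℤ) : ℚ) * u l = m * u i := by
  rw [Finset.sum_eq_single i]
  · rw [Pi.single_eq_same]
  · intro l _ hl
    rw [Pi.single_eq_of_ne hl, Int.cast_zero, zero_mul]
  · intro h
    exact absurd (Finset.mem_univ i) h

theorem sum_single_sub {σ : Type} [Fintype σ] [DecidableEq σ] (u : σ → ℚ) (i j : σ) (m m' : ℤ) :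
    ∑ l, (((Pi.single i m - Pi.single j m' : σ → ℤ) l : ℤ) : ℚ) * u l = m * u i - m' * u j := by
  rw [← sum_single u i m, ← sum_single u j m', ← Finset.sum_sub_distrib]
  refine Finset.sum_congr rfl fun l _ => ?_
  rw [Pi.sub_apply, Int.cast_sub, sub_mul]

/-- The values of the coordinates of a point on a special subvariety of a given type give a compatible
point of the tropicalization. -/
theorem compat_point {n k N r : ℕ} (V : ValuationSubring ℂ) (π : V.ValueGroup)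
    (hπ0 : π ≠ 0) (hπ1 : π < 1) {κ : Type} [Finite κ]
    (supp : κ → Finset (((Fin n ⊕ Fin k) ⊕ Fin N) →₀ ℕ))
    (b : κ → (((Fin n ⊕ Fin k) ⊕ Fin N) →₀ ℕ) → ℂ) (e : κ → (((Fin n ⊕ Fin k) ⊕ Fin N) →₀ ℕ) → ℕ)
    (hb : ∀ q, ∀ β ∈ supp q, V.valuation (b q β) = π ^ e q β)
    (z : (Fin n ⊕ Fin k) ⊕ Fin N → ℂ) (hz : ∀ q, ∑ β ∈ supp q, b q β * ∏ i, z i ^ β i = 0)
    (cls : Fin n → Option (Fin r)) (d : Fin n → ℕ) (hd : ∀ i, 0 < d i)
    (hsmall : ∀ i, cls i = none → V.valuation (z (Sum.inl (Sum.inl i))) ≤ 1)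
    (hrel : ∀ i j c, cls i = some c → cls j = some c →
      Polynomial.eval₂ (Polynomial.aeval (z (Sum.inl (Sum.inl i))) :
        Polynomial ℂ →ₐ[ℂ] ℂ).toRingHom (z (Sum.inl (Sum.inl j))) (Psi (d i * d j)) = 0)
    (hx0 : ∀ j, z (Sum.inl (Sum.inr j)) ≠ 0) (M : Submodule ℤ (Fin k → ℤ))
    (hM : ∀ c ∈ M, ∏ j, V.valuation (z (Sum.inl (Sum.inr j))) ^ c j = 1) :
    ∃ w, (∀ q, TropAt (supp q) (e q) w) ∧
      Compatible cls d (Pool.Agent.Y199.ZF.perp M) w := by
  classical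
  set v := V.valuation with hv
  have hQ : ∀ i j, 0 < d i * d j := fun i j => Nat.mul_pos (hd i) (hd j)
  let xx : Fin n → ℂ := fun i => z (Sum.inl (Sum.inl i))
  let I1 := {i : Fin n // xx i ≠ 0 ∧ v (xx i) ≤ 1}
  let I2 := {p : Fin n × Fin n // (∃ c, cls p.1 = some c ∧ cls p.2 = some c) ∧ 1 < v (xx p.1)}
  have hA : ∀ p : I2, ∃ a : ℕ, v (xx p.1.2) ^ (d p.1.1 * d p.1.2) = v (xx p.1.1) ^ (a ^ 2) := by
    rintro ⟨⟨i, j⟩, ⟨c, hi, hj⟩, h⟩
    exact ((Psi_spec (hQ i j)).2.2 ℂ V _ _ (hrel i j c hi hj)).2 h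
  choose A hA using hA
  have hgt : ∀ p : I2, 1 < v (xx p.1.2) := by
    rintro ⟨⟨i, j⟩, ⟨c, hi, hj⟩, h⟩
    by_contra h1
    push Not at h1
    exact absurd (((Psi_spec (hQ j i)).2.2 ℂ V _ _ (hrel j i c hj hi)).1 h1) (not_le.2 h)
  have hA0 : ∀ p : I2, A p ≠ 0 := by
    intro p h0
    have h1 := hA p
    rw [h0, zero_pow two_ne_zero, pow_zero] at h1
    have h2 := one_lt_pow₀ (hgt p) (hQ p.1.1 p.1.2).ne'
    rw [h1] at h2
    exact lt_irrefl _ h2
  let B := Module.Free.chooseBasis ℤ M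
  let I3 := Module.Free.ChooseBasisIndex ℤ M
  let ext : (Fin k → ℤ) → ((Fin n ⊕ Fin k) ⊕ Fin N → ℤ) := fun c =>
    Sum.elim (Sum.elim 0 c) 0
  let vec : I1 ⊕ ((I2 ⊕ I2) ⊕ (I3 ⊕ I3)) → ((Fin n ⊕ Fin k) ⊕ Fin N → ℤ) :=
    Sum.elim (fun i => Pi.single (Sum.inl (Sum.inl i.1)) 1)
      (Sum.elim (Sum.elim
        (fun p => Pi.single (Sum.inl (Sum.inl p.1.2)) ((d p.1.1 * d p.1.2 : ℕ) : ℤ) -
          Pi.single (Sum.inl (Sum.inl p.1.1)) (((A p) ^ 2 : ℕ) : ℤ))
        (fun p => Pi.single (Sum.inl (Sum.inl p.1.1)) (((A p) ^ 2 : ℕ) : ℤ) -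
          Pi.single (Sum.inl (Sum.inl p.1.2)) ((d p.1.1 * d p.1.2 : ℕ) : ℤ)))
        (Sum.elim (fun c => ext (B c : Fin k → ℤ)) (fun c => ext (-(B c : Fin k → ℤ)))))
  have hy : ∀ i, xx i ≠ 0 → yv V z (Sum.inl (Sum.inl i)) = v (xx i) := fun i h =>
    yv_of_ne V h
  have hne : ∀ i, 1 < v (xx i) → xx i ≠ 0 := by
    intro i h h0
    rw [h0, map_zero] at h
    exact absurd h (not_lt.2 zero_le_one)
  have hext : ∀ c : Fin k → ℤ, ∏ l, yv V z l ^ ext c l =
      ∏ j, v (z (Sum.inl (Sum.inr j))) ^ c j := by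
    intro c
    rw [Fintype.prod_sum_type, Fintype.prod_sum_type]
    have h1 : ∏ a, yv V z (Sum.inl (Sum.inl a)) ^ ext c (Sum.inl (Sum.inl a)) = 1 :=
      Finset.prod_eq_one fun a _ => zpow_zero _
    have h2 : ∏ a, yv V z (Sum.inr a) ^ ext c (Sum.inr a) = 1 :=
      Finset.prod_eq_one fun a _ => zpow_zero _
    rw [h1, h2, one_mul, mul_one]
    refine Finset.prod_congr rfl fun j _ => ?_
    rw [yv_of_ne V (hx0 j)]
    rfl
  obtain ⟨w, u, hw0, hw1, htrop, hu⟩ := local_point V π hπ0 hπ1 supp b e hb z hz vec (by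
    rintro (i | ((p | p) | (c | c)))
    · change ∏ l, yv V z l ^ ((Pi.single (Sum.inl (Sum.inl i.1)) (1 : ℤ) :
        (Fin n ⊕ Fin k) ⊕ Fin N → ℤ) l) ≤ 1
      rw [prod_single, zpow_one, hy _ i.2.1]
      exact i.2.2
    · change ∏ l, yv V z l ^ ((Pi.single (Sum.inl (Sum.inl p.1.2))
        ((d p.1.1 * d p.1.2 : ℕ) : ℤ) - Pi.single (Sum.inl (Sum.inl p.1.1))
          (((A p) ^ 2 : ℕ) : ℤ) : (Fin n ⊕ Fin k) ⊕ Fin N → ℤ) l) ≤ 1
      rw [prod_single_sub _ (yv_ne V z), zpow_natCast, zpow_natCast, hy _ (hne _ (hgt p)),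
        hy _ (hne _ p.2.2), hA p]
      exact (div_self (pow_ne_zero _ ((Valuation.ne_zero_iff _).2 (hne _ p.2.2)))).le
    · change ∏ l, yv V z l ^ ((Pi.single (Sum.inl (Sum.inl p.1.1))
          (((A p) ^ 2 : ℕ) : ℤ) - Pi.single (Sum.inl (Sum.inl p.1.2))
        ((d p.1.1 * d p.1.2 : ℕ) : ℤ) : (Fin n ⊕ Fin k) ⊕ Fin N → ℤ) l) ≤ 1
      rw [prod_single_sub _ (yv_ne V z), zpow_natCast, zpow_natCast, hy _ (hne _ (hgt p)),
        hy _ (hne _ p.2.2), hA p]
      exact (div_self (pow_ne_zero _ ((Valuation.ne_zero_iff _).2 (hne _ p.2.2)))).le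
    · change ∏ l, yv V z l ^ (ext (B c : Fin k → ℤ)) l ≤ 1
      rw [hext, hM _ (B c).2]
    · change ∏ l, yv V z l ^ (ext (-(B c : Fin k → ℤ))) l ≤ 1
      rw [hext, hM _ (M.neg_mem (B c).2)])
  refine ⟨w, htrop, fun i hi => ?_, fun i j c hi hj => ?_, ?_⟩
  · by_cases h0 : xx i = 0
    · rw [hw0 _ h0]
      exact le_top
    · have h1 := hu (Sum.inl ⟨i, h0, hsmall i hi⟩)
      simp only [vec, Sum.elim_inl] at h1
      rw [sum_single, Int.cast_one, one_mul] at h1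
      rw [hw1 _ h0]
      exact_mod_cast h1
  · have hsm : ∀ i, v (xx i) ≤ 1 → 0 ≤ w (Sum.inl (Sum.inl i)) := by
      intro i h2
      by_cases h0 : xx i = 0
      · rw [hw0 _ h0]
        exact le_top
      · have h1 := hu (Sum.inl ⟨i, h0, h2⟩)
        simp only [vec, Sum.elim_inl] at h1
        rw [sum_single, Int.cast_one, one_mul] at h1
        rw [hw1 _ h0]
        exact_mod_cast h1
    by_cases hl : v (xx i) ≤ 1
    · left
      exact ⟨hsm i hl, hsm j (((Psi_spec (hQ i j)).2.2 ℂ V _ _ (hrel i j c hi hj)).1 hl)⟩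
    · push Not at hl
      let p : I2 := ⟨(i, j), ⟨c, hi, hj⟩, hl⟩
      have hp0 : (0 : ℚ) < ((A p : ℚ)) ^ 2 := by
        have := Nat.pos_of_ne_zero (hA0 p)
        positivity
      have hN0 : (0 : ℚ) < (d i : ℚ) * d j := by
        have h1 := hd i
        have h2 := hd j
        positivity
      have h1 := hu (Sum.inr (Sum.inl (Sum.inl p)))
      have h2 := hu (Sum.inr (Sum.inl (Sum.inr p)))
      simp only [vec, Sum.elim_inl, Sum.elim_inr] at h1 h2
      rw [sum_single_sub] at h1 h2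
      push_cast at h1 h2
      have h3 : (d i : ℚ) * d j * u (Sum.inl (Sum.inl j)) = (A p : ℚ) ^ 2 * u (Sum.inl (Sum.inl i)) :=
        le_antisymm (by linarith) (by linarith)
      have hwi := hw1 (Sum.inl (Sum.inl i)) (hne i hl)
      have hwj := hw1 (Sum.inl (Sum.inl j)) (hne j (hgt p))
      by_cases hneg : u (Sum.inl (Sum.inl i)) < 0
      · right
        have h4 : u (Sum.inl (Sum.inl j)) < 0 := by
          by_contra h5
          push Not at h5
          have h6 := mul_nonneg hN0.le h5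
          rw [h3] at h6
          have h7 := mul_neg_of_pos_of_neg hp0 hneg
          linarith
        refine ⟨_, _, hwi, hwj, hneg, h4, ⟨(A p : ℚ) * u (Sum.inl (Sum.inl i)), ?_⟩⟩
        calc (d i : ℚ) * d j * (u (Sum.inl (Sum.inl i)) * u (Sum.inl (Sum.inl j)))
            = u (Sum.inl (Sum.inl i)) * ((d i : ℚ) * d j * u (Sum.inl (Sum.inl j))) := by ring
          _ = _ := by
            rw [h3]
            ring
      · left
        push Not at hneg
        have h4 : 0 ≤ u (Sum.inl (Sum.inl j)) := by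
          by_contra h5
          push Not at h5
          have h6 := mul_neg_of_pos_of_neg hN0 h5
          rw [h3] at h6
          have h7 := mul_nonneg hp0.le hneg
          linarith
        rw [hwi, hwj]
        exact ⟨by exact_mod_cast hneg, by exact_mod_cast h4⟩
  · refine ⟨fun j => u (Sum.inl (Sum.inr j)), ?_, fun j => hw1 _ (hx0 j)⟩
    refine Pool.Agent.Y199.ZF.mem_perp_of_basis B fun i => ?_
    have hsum : ∀ c : Fin k → ℤ, ∑ l, ((ext c l : ℤ) : ℚ) * u l =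
        ∑ j, (c j : ℚ) * u (Sum.inl (Sum.inr j)) := by
      intro c
      rw [Fintype.sum_sum_type, Fintype.sum_sum_type]
      simp [ext]
    have h1 := hu (Sum.inr (Sum.inr (Sum.inl i)))
    have h2 := hu (Sum.inr (Sum.inr (Sum.inr i)))
    simp only [vec, Sum.elim_inl, Sum.elim_inr] at h1 h2
    rw [hsum] at h1 h2
    simp only [Pi.neg_apply, Int.cast_neg, neg_mul, Finset.sum_neg_distrib] at h2
    linarith

end Pool.Agent.R424.TG
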